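import Pool.Agent.Helper81.DL.Euler2
import Pool.Agent.Helper69.DL.Sep
import Pool.Agent.Helper69.DL.First
import Pool.Agent.Helper69.DL.Rel2

/-! # Finiteness of the pairs of roots of unity near the curve to the first order -/

open Finset MvPolynomial

namespace Pool.Agent.Helper81.DL
open Pool.Agent.Helper20.DL Pool.Agent.Helper20.ZD Pool.Agent.Helper69.DL

variable {v : AbsoluteValue ℂ ℝ}

/-- the parts of a polynomial without coset factor do not vanish together -/
lemma false_of_parts {H : MvPolynomial (Fin 2) ℤ} (hH : Pool.Agent.Helper20.DL.NoCoset v H) {x y : ℂ} (hx : v x = 1) (hy : v y = 1)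
    {u w : ℤ} (huw : ¬ (u = 0 ∧ w = 0))
    (hs : ∀ e ∈ H.support.image (wt u w), v (aeval ![x, y] (part u w e H)) < 1) : False := by
  obtain ⟨e, he⟩ := hH x y hx hy u w huw
  have h1 : aeval ![x, y] (part u w e H) =
      ∑ m ∈ H.support with u * m 0 + w * m 1 = e, ((H.coeff m : ℤ) : ℂ) * x ^ m 0 * y ^ m 1 := by
    rw [part, map_sum]
    refine Finset.sum_congr rfl fun m _ => ?_
    rw [aeval_monomial, Finsupp.prod_fintype _ _ (fun i => pow_zero _), Fin.prod_univ_two]
    simp [mul_assoc]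
  rw [← h1] at he
  by_cases hmem : e ∈ H.support.image (wt u w)
  · exact absurd he (hs e hmem).ne
  · have h2 : part u w e H = 0 := by
      rw [part, Finset.filter_false_of_mem, Finset.sum_empty]
      intro m hm h3
      exact hmem (mem_image.2 ⟨m, hm, h3⟩)
    rw [h2, map_zero, map_zero] at he
    exact zero_ne_one he

/-- the polynomial `G(T, x)` -/
noncomputable def fib {E : Type} [Field E] (G : MvPolynomial (Fin 2) ℤ) (x : E) : Polynomial E :=
  aeval ![Polynomial.X, Polynomial.C x] G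

lemma coeff_fib {E : Type} [Field E] (G : MvPolynomial (Fin 2) ℤ) (x : E) (k : ℕ) :
    (fib G x).coeff k = aeval ![1, x] (part 1 0 k G) := by
  rw [fib, aeval_def, eval₂_eq', Polynomial.finsetSum_coeff, part, map_sum, Finset.sum_filter]
  refine Finset.sum_congr rfl fun m _ => ?_
  rw [Fin.prod_univ_two]
  simp only [Matrix.cons_val_zero, Matrix.cons_val_one]
  rw [eq_intCast, ← Polynomial.C_pow, ← mul_assoc, Polynomial.coeff_mul_C, ← Polynomial.C_eq_intCast,
    Polynomial.coeff_C_mul, Polynomial.coeff_X_pow]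
  have h1 : (wt 1 0 m = (k : ℤ)) ↔ k = m 0 := by
    rw [wt, one_mul, zero_mul, add_zero, Nat.cast_inj, eq_comm]
  by_cases h : k = m 0
  · rw [if_pos h, if_pos (h1.2 h), aeval_monomial, Finsupp.prod_fintype _ _ (fun i => pow_zero _),
      Fin.prod_univ_two]
    simp
  · rw [if_neg h, if_neg (fun h2 => h (h1.1 h2)), mul_zero, zero_mul]

lemma natDegree_fib {E : Type} [Field E] (G : MvPolynomial (Fin 2) ℤ) (x : E) :
    (fib G x).natDegree ≤ G.totalDegree := by
  rw [Polynomial.natDegree_le_iff_coeff_eq_zero]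
  intro k hk
  rw [coeff_fib]
  have h2 : part 1 0 k G = 0 := by
    rw [part, Finset.filter_false_of_mem, Finset.sum_empty]
    intro m hm h3
    rw [wt, one_mul, zero_mul, add_zero, Nat.cast_inj] at h3
    have h4 := (monomial_le_degreeOf 0 hm).trans (degreeOf_le_totalDegree G 0)
    omega
  rw [h2, map_zero]

/-- **Finiteness of the pairs of roots of unity near the curve to the first order.** -/
theorem finitePairs2 (hv : IsNonarchimedean v) {p : ℕ} (hp : p.Prime) (hvp : v (p : ℂ) < 1) :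
    FinitePairs2 v p := by
  intro H G c hH hG
  classical
  have := Fact.mk hp
  set S : Set (ℂ × ℂ) := pairs2 v p H G c with hSdef
  suffices h : S.Finite from ⟨h.toFinset, fun z hz => h.mem_toFinset.2 hz⟩
  by_contra hinf
  have hinf' : Infinite S := Set.infinite_coe_iff.2 hinf
  have hpp : 0 < v (p : ℂ) := by rw [AbsoluteValue.pos_iff]; exact_mod_cast hp.ne_zero
  have hlarge : ∀ H' : MvPolynomial (Fin 2) ℤ, GoodRel v p H' → H'.totalDegree < p := by
    intro H' h
    have := h.large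
    nlinarith
  have hp2 : p ≠ 2 := by
    have h1 := hH.large
    have h2 : 1 ≤ (H.totalDegree + 1) ^ 2 := Nat.one_le_pow _ _ (Nat.succ_pos _)
    rintro rfl
    omega
  obtain ⟨B, hB⟩ := exists_frob hp H 1
  rw [pow_one] at hB
  have hB2 : H ^ p - expand p H = C (p : ℤ) * B := by rw [hB]; ring
  have hfirst := fun z (hz : z ∈ S) => pairs2_first hv hp hp2 hvp hB2 hz
  choose hz1 hz2 hHz u hu g0 g1 g2 g3 hW using hfirst
  have hS : ∀ z ∈ S, v z.1 = 1 ∧ v z.2 = 1 := fun z hz => ⟨hz1 z hz, hz2 z hz⟩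
  set U : Ultrafilter S := Filter.hyperfilter S with hU
  set Q := limIdeal hv hS U with hQdef
  have hQ : Q.IsPrime := isPrime_limIdeal hv hS U
  have hpQ : C (p : ℤ) ∈ Q := by
    refine Filter.Eventually.of_forall fun s => ?_
    rw [aeval_C]
    have : algebraMap ℤ ℂ p = (p : ℂ) := by simp
    rw [this]
    exact hvp
  have hHQ : H ∈ Q := Filter.Eventually.of_forall fun s => by
    have h1 := hHz s.1 s.2
    rw [ev_eq_aeval] at h1
    exact lt_of_le_of_lt h1 hvp
  have hX0 : (X 0 : MvPolynomial (Fin 2) ℤ) ∉ Q := by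
    intro h
    obtain ⟨s, hs⟩ := (mem_limIdeal.1 h).exists
    rw [aeval_X] at hs
    exact absurd (hS s.1 s.2).1 hs.ne
  have hY0 : (X 1 : MvPolynomial (Fin 2) ℤ) ∉ Q := by
    intro h
    obtain ⟨s, hs⟩ := (mem_limIdeal.1 h).exists
    rw [aeval_X] at hs
    exact absurd (hS s.1 s.2).2 hs.ne
  have hroot : ∀ i : Fin 2, ∀ n : ℕ, X i ^ n - 1 ∈ Q → ∀ᶠ s : S in (U : Filter S),
      (![s.1.1, s.1.2] i) ^ n = 1 := by
    intro i n h1
    filter_upwards [mem_limIdeal.1 h1] with s hs
    rw [map_sub, map_pow, aeval_X, map_one] at hs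
    obtain ⟨⟨N, hN, hx, hy⟩, -⟩ := s.2
    refine eq_one_of_near hv hvp hN ?_ hs
    rw [← pow_mul, mul_comm, pow_mul]
    fin_cases i
    · change (s.1.1 ^ N) ^ n = 1; rw [hx, one_pow]
    · change (s.1.2 ^ N) ^ n = 1; rw [hy, one_pow]
  have hnot : ¬ ((∃ n, 0 < n ∧ X 0 ^ n - 1 ∈ Q) ∧ (∃ n, 0 < n ∧ X 1 ^ n - 1 ∈ Q)) := by
    rintro ⟨⟨n, hn, hxn⟩, ⟨m, hm, hym⟩⟩
    have h1 := (hroot 0 n hxn).and (hroot 1 m hym)
    have hfin : ∀ k : ℕ, 0 < k → {z : ℂ | z ^ k = 1}.Finite := by
      intro k hk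
      have h2 : {z : ℂ | z ^ k = 1} ⊆ ((Polynomial.nthRoots k (1 : ℂ)).toFinset : Set ℂ) := by
        intro z hz
        rw [Finset.mem_coe, Multiset.mem_toFinset, Polynomial.mem_nthRoots hk]
        exact hz
      exact (Finset.finite_toSet _).subset h2
    have h3 : {s : S | (![s.1.1, s.1.2] 0) ^ n = 1 ∧ (![s.1.1, s.1.2] 1) ^ m = 1}.Finite := by
      have h4 : ({z : ℂ × ℂ | z.1 ^ n = 1 ∧ z.2 ^ m = 1}).Finite :=
        ((hfin n hn).prod (hfin m hm)).subset fun z hz => ⟨hz.1, hz.2⟩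
      exact (h4.preimage (Subtype.val_injective.injOn)).subset fun s hs => hs
    exact Filter.notMem_hyperfilter_of_finite h3 h1
  -- the limit field
  obtain ⟨K, _, π, hπ⟩ := exists_limField hv U
  set xy : Fin 2 → S → ball hv := ![fun s => ⟨s.1.1, (hz1 s.1 s.2).le⟩, fun s => ⟨s.1.2, (hz2 s.1 s.2).le⟩]
    with hxy
  set t : Fin 4 → S → ball hv := fun i s => ⟨u s.1 s.2 i, hu s.1 s.2 i⟩ with ht
  have hxys : ∀ (i : Fin 2) (s : S), evalAt hv s (xy i) = ![s.1.1, s.1.2] i := by
    intro i s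
    fin_cases i <;> rfl
  have hevs : ∀ (f : MvPolynomial (Fin 2) ℤ) (s : S), evalAt hv s (aeval xy f) = aeval ![s.1.1, s.1.2] f := by
    intro f s
    rw [ringHom_aeval]
    congr 2
    funext i
    exact hxys i s
  set ψ : MvPolynomial (Fin 2) ℤ →+* K :=
    π.comp ((aeval xy : MvPolynomial (Fin 2) ℤ →ₐ[ℤ] (S → ball hv)) : MvPolynomial (Fin 2) ℤ →+* (S → ball hv))
    with hψdef
  have hψa : ∀ f, ψ f = π (aeval xy f) := fun f => rfl
  have hψ : ∀ f, ψ f = 0 ↔ f ∈ Q := by
    intro f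
    rw [hψa, hπ, mem_limIdeal]
    refine Filter.eventually_congr (Filter.Eventually.of_forall fun s => ?_)
    rw [← hevs, evalAt_apply]
  obtain ⟨E, _, _, φ, hφψ, hfrac⟩ := exists_subfield ψ
  have hφ : ∀ f, φ f = 0 ↔ f ∈ Q := by
    intro f
    rw [← hψ, ← hφψ, FaithfulSMul.algebraMap_eq_zero_iff]
  have hcharE : CharP E p := by
    rw [CharP.charP_iff_prime_eq_zero hp]
    have h1 := (hφ _).2 hpQ
    have h2 : φ (C (p : ℤ)) = ((p : ℕ) : E) := by
      have h3 : (C (p : ℤ) : MvPolynomial (Fin 2) ℤ) = ((p : ℕ) : MvPolynomial (Fin 2) ℤ) := by simp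
      rw [h3, map_natCast]
    rwa [h2] at h1
  let _ : Algebra (ZMod p) E := ZMod.algebra E p
  -- the algebraic elements
  have hfib : ∀ (i : Fin 4) (j : Fin 2), (∀ s : S, v (ev (G i) (u s.1 s.2 i) (![s.1.1, s.1.2] j)) < 1) →
      ∃ P : Polynomial E, P ≠ 0 ∧ P.natDegree < p ∧ Polynomial.aeval (π (t i)) P = 0 := by
    intro i j hij
    refine ⟨fib (G i) (φ (X j)), ?_, (natDegree_fib _ _).trans_lt (hlarge _ (hG i)), ?_⟩
    · intro h0
      have h1 : ∀ᶠ s : S in (U : Filter S), ∀ e ∈ (G i).support.image (wt 1 0),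
          v (aeval ![1, ![s.1.1, s.1.2] j] (part 1 0 e (G i))) < 1 := by
        rw [Filter.eventually_all_finset]
        intro e he
        obtain ⟨m, hm, rfl⟩ := mem_image.1 he
        have h2 := coeff_fib (G i) (φ (X j)) (m 0)
        rw [h0, Polynomial.coeff_zero] at h2
        have h3 : wt 1 0 m = ((m 0 : ℕ) : ℤ) := by rw [wt, one_mul, zero_mul, add_zero]
        rw [← h3] at h2
        have h4 := congrArg (algebraMap E K) h2
        rw [map_zero, ringHom_aeval] at h4
        have h5 : (fun k : Fin 2 => algebraMap E K ((![1, φ (X j)] : Fin 2 → E) k)) =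
            fun k => π ((![1, xy j] : Fin 2 → (S → ball hv)) k) := by
          funext k
          fin_cases k
          · change algebraMap E K 1 = π 1
            rw [map_one, map_one]
          · change algebraMap E K (φ (X j)) = π (xy j)
            rw [hφψ, hψa, aeval_X]
        rw [h5, ← ringHom_aeval] at h4
        have h6 := (hπ _).1 h4.symm
        filter_upwards [h6] with s hs
        rw [← evalAt_apply, ringHom_aeval] at hs
        have h7 : (fun k : Fin 2 => evalAt hv s ((![1, xy j] : Fin 2 → (S → ball hv)) k)) =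
            ![1, ![s.1.1, s.1.2] j] := by
          funext k
          fin_cases k
          · change evalAt hv s 1 = 1
            rw [map_one]
          · exact hxys j s
        rw [h7] at hs
        exact hs
      obtain ⟨s, hs⟩ := h1.exists
      refine false_of_parts (hG i).noCoset (map_one v) ?_ (by simp) hs
      fin_cases j
      · exact hz1 s.1 s.2
      · exact hz2 s.1 s.2
    · have h1 : Polynomial.aeval (π (t i)) (fib (G i) (φ (X j))) =
          aeval (fun k => π ((![t i, xy j] : Fin 2 → (S → ball hv)) k)) (G i) := by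
        rw [fib]
        have h2 := ringHom_aeval (Polynomial.aeval (π (t i)) : Polynomial E →ₐ[E] K).toRingHom
          ![Polynomial.X, Polynomial.C (φ (X j))] (G i)
        refine h2.trans ?_
        congr 2
        funext k
        fin_cases k
        · change Polynomial.aeval (π (t i)) Polynomial.X = π (t i)
          rw [Polynomial.aeval_X]
        · change Polynomial.aeval (π (t i)) (Polynomial.C (φ (X j))) = π (xy j)
          rw [Polynomial.aeval_C, hφψ, hψa, aeval_X]
      rw [h1, ← ringHom_aeval, hπ]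
      refine Filter.Eventually.of_forall fun s => ?_
      rw [← evalAt_apply, ringHom_aeval]
      have h7 : (fun k : Fin 2 => evalAt hv s ((![t i, xy j] : Fin 2 → (S → ball hv)) k)) =
          ![u s.1 s.2 i, ![s.1.1, s.1.2] j] := by
        funext k
        fin_cases k
        · rfl
        · exact hxys j s
      rw [h7, ← ev_eq_aeval]
      exact hij s
  have hs : ∀ z ∈ Set.range (fun i => π (t i)), ∃ P : Polynomial E, P ≠ 0 ∧ P.natDegree < p ∧
      Polynomial.aeval z P = 0 := by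
    rintro z ⟨i, rfl⟩
    fin_cases i
    · exact hfib 0 0 fun s => g0 s.1 s.2
    · exact hfib 1 0 fun s => g1 s.1 s.2
    · exact hfib 2 1 fun s => g2 s.1 s.2
    · exact hfib 3 1 fun s => g3 s.1 s.2
  -- the element `W`
  set W : S → ball hv := -(xy 0 * aeval xy (pderiv 0 H) * (((c 0 : ℤ) : S → ball hv) * t 0 + c 1 * t 1) +
    xy 1 * aeval xy (pderiv 1 H) * (c 2 * t 2 + c 3 * t 3)) with hWdef
  have hWs : ∀ s : S, evalAt hv s W = firstW H c s.1 (u s.1 s.2) := by
    intro s
    rw [hWdef, firstW]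
    simp only [map_neg, map_add, map_mul, hevs, hxys, map_intCast]
    rfl
  have hWrel : ψ B + π W ^ p = 0 := by
    rw [hψa, ← map_pow, ← map_add, hπ]
    refine Filter.Eventually.of_forall fun s => ?_
    rw [← evalAt_apply, map_add, map_pow, hevs, hWs]
    exact hW s.1 s.2
  have hWmem : π W ∈ Algebra.adjoin E (Set.range (fun i => π (t i))) := by
    set A := Algebra.adjoin E (Set.range (fun i => π (t i))) with hA
    have m1 : ∀ f, ψ f ∈ A := by
      intro f
      rw [← hφψ]
      exact Subalgebra.algebraMap_mem _ _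
    have m2 : ∀ i, π (xy i) ∈ A := by
      intro i
      have := m1 (X i)
      rwa [hψa, aeval_X] at this
    have m3 : ∀ f, π (aeval xy f) ∈ A := fun f => m1 f
    have m4 : ∀ i, π (t i) ∈ A := fun i => Algebra.subset_adjoin ⟨i, rfl⟩
    have m5 : ∀ k : ℤ, π (k : S → ball hv) ∈ A := by
      intro k
      rw [map_intCast]
      exact intCast_mem A k
    rw [hWdef, map_neg, map_add, map_mul, map_mul, map_mul, map_mul, map_add, map_add, map_mul, map_mul,
      map_mul, map_mul]
    exact neg_mem (add_mem (mul_mem (mul_mem (m2 0) (m3 _)) (add_mem (mul_mem (m5 _) (m4 0))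
      (mul_mem (m5 _) (m4 1)))) (mul_mem (mul_mem (m2 1) (m3 _)) (add_mem (mul_mem (m5 _) (m4 2))
      (mul_mem (m5 _) (m4 3)))))
  have hBδ : ∀ δ : Derivation (ZMod p) E E, δ (φ B) = 0 := by
    intro δ
    have h1 : algebraMap E K (-φ B) = π W ^ p := by
      rw [map_neg, hφψ]
      linear_combination -hWrel
    have h2 := derivation_eq_zero hp hs hWmem h1 δ
    rw [map_neg, neg_eq_zero] at h2
    exact h2
  -- the Euler operator
  have hpow : ∀ (i : Fin 2) (n : ℕ), φ (X i) ^ n = 1 → X i ^ n - 1 ∈ Q := by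
    intro i n h
    rw [← hφ, map_sub, map_pow, h, map_one, sub_self]
  obtain ⟨A₁, B₁, P₁, h₁, k₁, hk₁⟩ := hH.sqf₀
  obtain ⟨A₂, B₂, P₂, h₂, k₂, hk₂⟩ := hH.sqf₁
  have hmap : ∀ (P : Polynomial ℤ) (k : ℕ), ¬ (p : ℤ) ∣ P.coeff k → P.map (Int.castRingHom (ZMod p)) ≠ 0 := by
    intro P k hk h
    have h1 := congrArg (fun P => Polynomial.coeff P k) h
    simp only [Polynomial.coeff_map, Polynomial.coeff_zero, eq_intCast] at h1
    exact hk ((ZMod.intCast_zmod_eq_zero_iff_dvd _ p).1 h1)
  obtain ⟨a, w, haw, ha, hw, hstab⟩ := exists_eul' φ hfrac (fun h => hX0 ((hφ _).1 h)) (fun h => hY0 ((hφ _).1 h))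
    (fun h => hnot ⟨h.1.imp fun n hn => ⟨hn.1, hpow 0 n hn.2⟩, h.2.imp fun n hn => ⟨hn.1, hpow 1 n hn.2⟩⟩)
    hB ((hφ _).2 hHQ) hBδ (hmap _ _ hk₁) (hmap _ _ hk₂) h₁ h₂
  have hstab' : ∀ f ∈ Q, eul a w f ∈ Q := fun f hf => (hφ _).1 (hstab f ((hφ _).2 hf))
  -- the weights
  set D := H.totalDegree with hD
  have hwt : ∀ m ∈ H.support, ∀ m' ∈ H.support, |wt a w m - wt a w m'| < p := by
    intro m hm m' hm'
    have hb : ∀ i : Fin 2, ∀ m ∈ H.support, ((m i : ℕ) : ℤ) ≤ D := by
      intro i m hm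
      exact_mod_cast (monomial_le_degreeOf i hm).trans (degreeOf_le_totalDegree H i)
    have hs : (Nat.sqrt p : ℤ) * Nat.sqrt p ≤ p := by exact_mod_cast Nat.sqrt_le p
    have hs0 : (0 : ℤ) ≤ Nat.sqrt p := by positivity
    have h1 : ∀ (t : ℤ) (i : Fin 2), |t| ≤ Nat.sqrt p →
        |t * m i - t * m' i| ≤ Nat.sqrt p * D := by
      intro t i ht
      rw [← mul_sub, abs_mul]
      have h2 : |((m i : ℕ) : ℤ) - (m' i : ℕ)| ≤ D := by
        rw [abs_le]
        have h3 := hb i m hm
        have h4 := hb i m' hm'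
        constructor <;> omega
      exact mul_le_mul ht h2 (abs_nonneg _) hs0
    have h2 : |wt a w m - wt a w m'| ≤ 2 * (Nat.sqrt p * D) := by
      have h3 : wt a w m - wt a w m' = (a * m 0 - a * m' 0) + (w * m 1 - w * m' 1) := by
        rw [wt, wt]; ring
      rw [h3]
      refine (abs_add_le _ _).trans ?_
      linarith [h1 a 0 ha, h1 w 1 hw]
    refine lt_of_le_of_lt h2 ?_
    have hpD' : 4 * (D : ℤ) ^ 2 < p := by
      have h5 : 64 * ((D : ℤ) + 1) ^ 2 ≤ p := by exact_mod_cast hH.large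
      nlinarith [Int.natCast_nonneg D]
    by_contra hcon
    push Not at hcon
    have hp0 : (0 : ℤ) < p := by exact_mod_cast hp.pos
    nlinarith [mul_le_mul hcon hcon hp0.le (by positivity : (0 : ℤ) ≤ 2 * (Nat.sqrt p * D)),
      mul_le_mul_of_nonneg_left hs (by positivity : (0 : ℤ) ≤ 4 * (D : ℤ) ^ 2)]
  have hpart := fun e => part_mem hQ hp hpQ hstab' hHQ hwt e
  have hev : ∀ᶠ s : S in (U : Filter S), ∀ e ∈ H.support.image (wt a w),
      v (aeval ![s.1.1, s.1.2] (part a w e H)) < 1 := by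
    rw [Filter.eventually_all_finset]
    exact fun e _ => hpart e
  obtain ⟨s, hs⟩ := hev.exists
  exact false_of_parts hH.noCoset (hz1 s.1 s.2) (hz2 s.1 s.2) haw hs

end Pool.Agent.Helper81.DL
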