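import Pool.Agent.Helper81.DL.Count
import Pool.Agent.Helper36.DL.UnifAsm

/-! # The count in the form of the assembly -/

namespace Pool.Agent.Helper81.DL
open Pool.Agent.Helper11.ZP Pool.Agent.Helper36.DL

variable {n : ℕ} {Z : Set (Fin n → ℂ)}

theorem countU (hZ : IsSubvariety Z) (h1 : dim Z = 1) (hc : ∀ (i : Fin n) (c : ℂ), ∃ z ∈ Z, z i ≠ c) : Count Z :=
  fun k l D _ => count hZ h1 hc k l D

end Pool.Agent.Helper81.DL
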