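import Mathlib

/-! # Homogeneous parts of a polynomial and prime ideals stable under an Euler operator -/

open Finset MvPolynomial

namespace Pool.Agent.Helper81.DL

/-- multiplication of the coefficients by a function of the exponents -/
noncomputable def mulC (c : (Fin 2 →₀ ℕ) → ℤ) (f : MvPolynomial (Fin 2) ℤ) : MvPolynomial (Fin 2) ℤ :=
  ∑ m ∈ f.support, monomial m (c m * f.coeff m)

lemma coeff_mulC (c : (Fin 2 →₀ ℕ) → ℤ) (f : MvPolynomial (Fin 2) ℤ) (m : Fin 2 →₀ ℕ) :
    (mulC c f).coeff m = c m * f.coeff m := by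
  classical
  rw [mulC, coeff_sum]
  simp only [coeff_monomial]
  rw [Finset.sum_ite_eq' f.support m]
  split_ifs with h
  · rfl
  · rw [notMem_support_iff.1 h, mul_zero]

/-- the Euler operator `u X ∂_X + w Y ∂_Y` -/
noncomputable def eul (u w : ℤ) (f : MvPolynomial (Fin 2) ℤ) : MvPolynomial (Fin 2) ℤ :=
  C u * (X 0 * pderiv 0 f) + C w * (X 1 * pderiv 1 f)

lemma eul_eq (u w : ℤ) (f : MvPolynomial (Fin 2) ℤ) : eul u w f = mulC (fun m => u * m 0 + w * m 1) f := by
  induction f using MvPolynomial.induction_on' with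
  | monomial m a =>
    ext m'
    rw [coeff_mulC, eul, pderiv_monomial, pderiv_monomial]
    have h1 : ∀ i : Fin 2, X i * monomial (m - Finsupp.single i 1) (a * (m i : ℤ)) =
        monomial m (a * (m i : ℤ)) := by
      intro i
      rcases Nat.eq_zero_or_pos (m i) with h | h
      · rw [h]; simp
      · have h2 : Finsupp.single i 1 + (m - Finsupp.single i 1) = m := by
          ext j
          by_cases hj : i = j
          · subst hj
            simp only [Finsupp.coe_add, Finsupp.coe_tsub, Pi.add_apply, Pi.sub_apply,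
              Finsupp.single_eq_same]
            omega
          · simp only [Finsupp.coe_add, Finsupp.coe_tsub, Pi.add_apply, Pi.sub_apply,
              Finsupp.single_apply, if_neg hj]
            omega
        rw [X, monomial_mul, one_mul, h2]
    rw [h1, h1, coeff_add, coeff_C_mul, coeff_C_mul, coeff_monomial, coeff_monomial, coeff_monomial]
    split_ifs with h
    · subst h; ring
    · ring
  | add f g hf hg =>
    have h1 : eul u w (f + g) = eul u w f + eul u w g := by
      rw [eul, eul, eul, map_add, map_add]; ring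
    rw [h1, hf, hg]
    ext m
    rw [coeff_add, coeff_mulC, coeff_mulC, coeff_mulC, coeff_add]
    ring

/-- the weight of a monomial -/
def wt (u w : ℤ) (m : Fin 2 →₀ ℕ) : ℤ := u * m 0 + w * m 1

/-- the part of weight `e` -/
noncomputable def part (u w e : ℤ) (f : MvPolynomial (Fin 2) ℤ) : MvPolynomial (Fin 2) ℤ :=
  ∑ m ∈ f.support with wt u w m = e, monomial m (f.coeff m)

lemma coeff_part (u w e : ℤ) (f : MvPolynomial (Fin 2) ℤ) (m : Fin 2 →₀ ℕ) :
    (part u w e f).coeff m = if wt u w m = e then f.coeff m else 0 := by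
  classical
  rw [part, coeff_sum]
  simp only [coeff_monomial]
  rw [Finset.sum_ite_eq' _ m]
  by_cases h : wt u w m = e
  · rw [if_pos h]
    split_ifs with h2
    · rfl
    · rw [mem_filter, not_and_or] at h2
      rcases h2 with h2 | h2
      · rw [notMem_support_iff.1 h2]
      · exact absurd h h2
  · rw [if_neg h, if_neg]
    rw [mem_filter]
    exact fun h2 => h h2.2

lemma mulC_prod_mem {Q : Ideal (MvPolynomial (Fin 2) ℤ)} {u w : ℤ} (hQ : ∀ f ∈ Q, eul u w f ∈ Q)
    {f : MvPolynomial (Fin 2) ℤ} (hf : f ∈ Q) (T : Finset ℤ) :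
    mulC (fun m => ∏ t ∈ T, (wt u w m - t)) f ∈ Q := by
  classical
  induction T using Finset.induction_on with
  | empty =>
    have h1 : mulC (fun m => ∏ t ∈ (∅ : Finset ℤ), (wt u w m - t)) f = f := by
      ext m
      rw [coeff_mulC]
      simp
    rwa [h1]
  | insert t T ht ih =>
    have h1 : mulC (fun m => ∏ t ∈ insert t T, (wt u w m - t)) f =
        eul u w (mulC (fun m => ∏ t ∈ T, (wt u w m - t)) f) -
          C t * mulC (fun m => ∏ t ∈ T, (wt u w m - t)) f := by
      ext m
      rw [coeff_sub, coeff_C_mul, eul_eq, coeff_mulC, coeff_mulC, coeff_mulC, Finset.prod_insert ht]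
      simp only [wt]
      ring
    rw [h1]
    exact Q.sub_mem (hQ _ ih) (Q.mul_mem_left _ ih)

/-- A prime ideal which contains `p`, is stable under an Euler operator and contains `f` contains the
homogeneous parts of `f`, if the weights vary in an interval of length less than `p`. -/
theorem part_mem {Q : Ideal (MvPolynomial (Fin 2) ℤ)} (hP : Q.IsPrime) {p : ℕ} (hp : p.Prime)
    (hpQ : C (p : ℤ) ∈ Q) {u w : ℤ} (hQ : ∀ f ∈ Q, eul u w f ∈ Q)
    {f : MvPolynomial (Fin 2) ℤ} (hf : f ∈ Q)
    (hw : ∀ m ∈ f.support, ∀ m' ∈ f.support, |wt u w m - wt u w m'| < p) (e : ℤ) :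
    part u w e f ∈ Q := by
  classical
  by_cases he : e ∈ f.support.image (wt u w)
  swap
  · have h1 : part u w e f = 0 := by
      ext m
      rw [coeff_part, coeff_zero]
      split_ifs with h
      · by_contra h2
        exact he (mem_image.2 ⟨m, mem_support_iff.2 h2, h⟩)
      · rfl
    rw [h1]
    exact Q.zero_mem
  set T := (f.support.image (wt u w)).erase e with hT
  have h1 := mulC_prod_mem hQ hf T
  have h2 : mulC (fun m => ∏ t ∈ T, (wt u w m - t)) f = C (∏ t ∈ T, (e - t)) * part u w e f := by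
    ext m
    rw [coeff_mulC, coeff_C_mul, coeff_part]
    split_ifs with h
    · rw [h]
    · rw [mul_zero]
      by_cases hm : m ∈ f.support
      · have : wt u w m ∈ T := mem_erase.2 ⟨h, mem_image_of_mem _ hm⟩
        rw [Finset.prod_eq_zero this (sub_self _), zero_mul]
      · rw [notMem_support_iff.1 hm, mul_zero]
  rw [h2] at h1
  refine (hP.mem_or_mem h1).resolve_left fun h3 => ?_
  rw [map_prod, hP.prod_mem_iff] at h3
  obtain ⟨t, ht, h3⟩ := h3
  obtain ⟨htne, ht⟩ := mem_erase.1 ht
  obtain ⟨m, hm, hme⟩ := mem_image.1 he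
  obtain ⟨m', hm', hmt⟩ := mem_image.1 ht
  have h4 : ¬ (p : ℤ) ∣ e - t := by
    intro hd
    have := Int.eq_zero_of_abs_lt_dvd hd (by rw [← hme, ← hmt]; exact hw m hm m' hm')
    exact htne (by linarith)
  have h5 : IsCoprime (e - t) (p : ℤ) := ((Nat.prime_iff_prime_int.1 hp).coprime_iff_not_dvd.2 h4).symm
  obtain ⟨a, b, hab⟩ := h5
  apply hP.ne_top
  rw [Ideal.eq_top_iff_one]
  have h6 : (1 : MvPolynomial (Fin 2) ℤ) = C a * C (e - t) + C b * C (p : ℤ) := by
    rw [← C_mul, ← C_mul, ← C_add, hab, C_1]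
  rw [h6]
  exact Q.add_mem (Q.mul_mem_left _ h3) (Q.mul_mem_left _ hpQ)

end Pool.Agent.Helper81.DL
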