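import Pool.Agent.Helper81.DL.Field
import Pool.Agent.Helper81.DL.Euler

/-! # Pairs of roots of unity of order prime to `p` on a curve modulo `p ^ 2` -/

open Finset MvPolynomial

namespace Pool.Agent.Helper81.DL
open Pool.Agent.Helper20.DL Pool.Agent.Helper20.ZD

variable {v : AbsoluteValue ℂ ℝ}

/-- the polynomials which are small at almost all points of `S`, for an ultrafilter on `S` -/
def limIdeal (hv : IsNonarchimedean v) {S : Set (ℂ × ℂ)} (hS : ∀ z ∈ S, v z.1 = 1 ∧ v z.2 = 1)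
    (U : Ultrafilter S) : Ideal (MvPolynomial (Fin 2) ℤ) where
  carrier := {f | ∀ᶠ s : S in (U : Filter S), v (aeval ![s.1.1, s.1.2] f) < 1}
  add_mem' := by
    intro a b ha hb
    filter_upwards [ha, hb] with s h1 h2
    rw [map_add]
    exact (hv _ _).trans_lt (max_lt h1 h2)
  zero_mem' := Filter.Eventually.of_forall fun s => by simp
  smul_mem' := by
    intro c f hf
    filter_upwards [hf] with s h
    rw [smul_eq_mul, map_mul, map_mul]
    exact lt_of_le_of_lt (mul_le_of_le_one_left (v.nonneg _)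
      (aeval_le_one hv c (hS s.1 s.2).1.le (hS s.1 s.2).2.le)) h

lemma mem_limIdeal {hv : IsNonarchimedean v} {S : Set (ℂ × ℂ)} {hS : ∀ z ∈ S, v z.1 = 1 ∧ v z.2 = 1}
    {U : Ultrafilter S} {f : MvPolynomial (Fin 2) ℤ} :
    f ∈ limIdeal hv hS U ↔ ∀ᶠ s : S in (U : Filter S), v (aeval ![s.1.1, s.1.2] f) < 1 := Iff.rfl

lemma isPrime_limIdeal (hv : IsNonarchimedean v) {S : Set (ℂ × ℂ)}
    (hS : ∀ z ∈ S, v z.1 = 1 ∧ v z.2 = 1) (U : Ultrafilter S) : (limIdeal hv hS U).IsPrime := by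
  refine ⟨?_, ?_⟩
  · rw [Ideal.ne_top_iff_one, mem_limIdeal]
    intro h
    obtain ⟨s, hs⟩ := h.exists
    rw [map_one, map_one] at hs
    exact lt_irrefl _ hs
  · intro f g hfg
    rw [mem_limIdeal] at hfg
    rw [mem_limIdeal, mem_limIdeal, ← Ultrafilter.eventually_or]
    filter_upwards [hfg] with s h
    rw [map_mul, map_mul] at h
    by_contra hcon
    push Not at hcon
    have h1 := one_le_mul_of_one_le_of_one_le hcon.1 hcon.2
    linarith

/-- the residue field of a prime ideal, as an abstract field -/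
lemma exists_field {Q : Ideal (MvPolynomial (Fin 2) ℤ)} (hQ : Q.IsPrime) :
    ∃ (F : Type) (_ : Field F) (φ : MvPolynomial (Fin 2) ℤ →+* F), (∀ f, φ f = 0 ↔ f ∈ Q) ∧
      ∀ z, ∃ a b, φ b ≠ 0 ∧ z = φ a / φ b := by
  have : IsDomain (MvPolynomial (Fin 2) ℤ ⧸ Q) := Ideal.Quotient.isDomain Q
  refine ⟨FractionRing (MvPolynomial (Fin 2) ℤ ⧸ Q), inferInstance,
    (algebraMap (MvPolynomial (Fin 2) ℤ ⧸ Q) (FractionRing (MvPolynomial (Fin 2) ℤ ⧸ Q))).comp
      (Ideal.Quotient.mk Q), fun f => ?_, fun z => ?_⟩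
  · rw [RingHom.comp_apply, FaithfulSMul.algebraMap_eq_zero_iff, Ideal.Quotient.eq_zero_iff_mem]
  · obtain ⟨a, b, hb, rfl⟩ := IsFractionRing.div_surjective (A := MvPolynomial (Fin 2) ℤ ⧸ Q) z
    obtain ⟨a, rfl⟩ := Ideal.Quotient.mk_surjective a
    obtain ⟨b, rfl⟩ := Ideal.Quotient.mk_surjective b
    refine ⟨a, b, ?_, rfl⟩
    rw [RingHom.comp_apply, Ne, FaithfulSMul.algebraMap_eq_zero_iff]
    exact nonZeroDivisors.ne_zero hb

/-- A prime ideal of `ℤ[X, Y]` which contains `p`, `H` and `Ψ`, but no `X ^ n - 1` or no `Y ^ n - 1`, is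
stable under an Euler operator with small coefficients. -/
theorem exists_eul {p : ℕ} (hp : p.Prime) {Q : Ideal (MvPolynomial (Fin 2) ℤ)} (hQ : Q.IsPrime)
    (hpQ : C (p : ℤ) ∈ Q) (hX : X 0 ∉ Q) (hY : X 1 ∉ Q)
    (hroot : ¬ ((∃ n, 0 < n ∧ X 0 ^ n - 1 ∈ Q) ∧ (∃ n, 0 < n ∧ X 1 ^ n - 1 ∈ Q)))
    {H B : MvPolynomial (Fin 2) ℤ} (hB : H ^ p = expand p H + C (p : ℤ) * B) (hHQ : H ∈ Q) (hBQ : B ∈ Q)
    {A₁ B₁ A₂ B₂ : MvPolynomial (Fin 2) ℤ} {P₁ P₂ : Polynomial ℤ}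
    (hP₁ : P₁.map (Int.castRingHom (ZMod p)) ≠ 0) (hP₂ : P₂.map (Int.castRingHom (ZMod p)) ≠ 0)
    (h₁ : A₁ * H + B₁ * pderiv 0 H = Polynomial.aeval (X 1) P₁)
    (h₂ : A₂ * H + B₂ * pderiv 1 H = Polynomial.aeval (X 0) P₂) :
    ∃ u w : ℤ, ¬ (u = 0 ∧ w = 0) ∧ |u| ≤ Nat.sqrt p ∧ |w| ≤ Nat.sqrt p ∧ ∀ f ∈ Q, eul u w f ∈ Q := by
  have := Fact.mk hp
  obtain ⟨F, _, φ, hφ, hfrac⟩ := exists_field hQ
  have hcharF : CharP F p := by
    rw [CharP.charP_iff_prime_eq_zero hp]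
    have h1 := (hφ _).2 hpQ
    have h2 : φ (C (p : ℤ)) = ((p : ℕ) : F) := by
      have h3 : (C (p : ℤ) : MvPolynomial (Fin 2) ℤ) = ((p : ℕ) : MvPolynomial (Fin 2) ℤ) := by simp
      rw [h3, map_natCast]
    rwa [h2] at h1
  let _ : Algebra (ZMod p) F := ZMod.algebra F p
  set x : F := φ (X 0) with hx
  set y : F := φ (X 1) with hy
  have hφ' : ∀ f : MvPolynomial (Fin 2) ℤ, aeval ![x, y] f = φ f := by
    intro f
    have h1 : ((aeval ![x, y] : MvPolynomial (Fin 2) ℤ →ₐ[ℤ] F) : MvPolynomial (Fin 2) ℤ →+* F) = φ := by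
      apply MvPolynomial.ringHom_ext
      · intro n
        rw [eq_intCast C n, map_intCast, map_intCast]
      · intro i
        rw [RingHom.coe_coe, aeval_X]
        fin_cases i <;> rfl
    exact congrArg (fun g : MvPolynomial (Fin 2) ℤ →+* F => g f) h1
  have hx0 : x ≠ 0 := by rw [hx, Ne, hφ]; exact hX
  have hy0 : y ≠ 0 := by rw [hy, Ne, hφ]; exact hY
  have hess : Algebra.EssFiniteType (ZMod p) F := by
    rw [Algebra.essFiniteType_iff]
    classical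
    refine ⟨{x, y}, fun z => ?_⟩
    have hmem : ∀ f, φ f ∈ Algebra.adjoin (ZMod p) (({x, y} : Finset F) : Set F) := by
      intro f
      induction f using MvPolynomial.induction_on with
      | C a =>
        have : φ (C a) = algebraMap (ZMod p) F a := by
          rw [eq_intCast C a, map_intCast, map_intCast]
        rw [this]
        exact Subalgebra.algebraMap_mem _ _
      | add f g hf hg => rw [map_add]; exact add_mem hf hg
      | mul_X f i hf =>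
        rw [map_mul]
        refine mul_mem hf (Algebra.subset_adjoin ?_)
        fin_cases i
        · simp [hx]
        · simp [hy]
    obtain ⟨a, b, hb, rfl⟩ := hfrac z
    refine ⟨φ b, hmem b, isUnit_iff_ne_zero.2 hb, ?_⟩
    rw [div_mul_cancel₀ _ hb]
    exact hmem a
  have hpow : ∀ (i : Fin 2) (n : ℕ), φ (X i) ^ n = 1 → X i ^ n - 1 ∈ Q := by
    intro i n h
    rw [← hφ, map_sub, map_pow, h, map_one, sub_self]
  obtain ⟨δ, hδ⟩ : ∃ δ : Derivation (ZMod p) F F, δ ≠ 0 := by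
    by_cases h : ∃ n, 0 < n ∧ x ^ n = 1
    · obtain ⟨n, hn, hxn⟩ := h
      exact exists_derivation hy0 fun m hm h2 => hroot ⟨⟨n, hn, hpow 0 n hxn⟩, m, hm, hpow 1 m h2⟩
    · push Not at h
      exact exists_derivation hx0 h
  have hδ' : ¬ (δ x = 0 ∧ δ y = 0) := by
    rintro ⟨h1, h2⟩
    apply hδ
    have h3 : ∀ f, δ (φ f) = 0 := by
      intro f
      have h4 := deriv_aeval δ x y f
      rw [hφ', h1, h2, mul_zero, mul_zero, add_zero] at h4
      exact h4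
    ext z
    obtain ⟨a, b, hb, rfl⟩ := hfrac z
    have h5 : δ ((φ a / φ b) * φ b) = 0 := by rw [div_mul_cancel₀ _ hb, h3]
    rw [Derivation.leibniz, h3, smul_zero, zero_add, smul_eq_mul, mul_eq_zero] at h5
    exact h5.resolve_left hb
  obtain ⟨u, w, huw, hu, hw, δ', hδx, hδy⟩ := exists_euler hx0 hy0 hB
    (by rw [hφ']; exact (hφ _).2 hHQ) (by rw [hφ']; exact (hφ _).2 hBQ) hP₁ hP₂ h₁ h₂ δ hδ'
  refine ⟨u, w, huw, hu, hw, fun f hf => ?_⟩
  have h1 := deriv_aeval δ' x y f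
  rw [hφ', (hφ f).2 hf, map_zero, hδx, hδy] at h1
  rw [← hφ, ← hφ', eul, map_add, map_mul, map_mul, map_mul, map_mul, aeval_C, aeval_C, aeval_X,
    aeval_X, eq_intCast, eq_intCast]
  simp only [Matrix.cons_val_zero, Matrix.cons_val_one]
  linear_combination -h1

/-- **Finiteness of the pairs of roots of unity modulo `p ^ 2`.** -/
theorem finite_pairs (hv : IsNonarchimedean v) {p : ℕ} (hp : p.Prime) (hvp : v (p : ℂ) < 1)
    {H : MvPolynomial (Fin 2) ℤ} {D : ℕ} (hD : ∀ i, H.degreeOf i ≤ D) (hpD : 4 * D ^ 2 < p)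
    (hH : NoCoset v H) {A₁ B₁ A₂ B₂ : MvPolynomial (Fin 2) ℤ} {P₁ P₂ : Polynomial ℤ}
    (hP₁ : P₁.map (Int.castRingHom (ZMod p)) ≠ 0) (hP₂ : P₂.map (Int.castRingHom (ZMod p)) ≠ 0)
    (h₁ : A₁ * H + B₁ * pderiv 0 H = Polynomial.aeval (X 1) P₁)
    (h₂ : A₂ * H + B₂ * pderiv 1 H = Polynomial.aeval (X 0) P₂) :
    {z : ℂ × ℂ | (∃ N : ℕ, N.Coprime p ∧ z.1 ^ N = 1 ∧ z.2 ^ N = 1) ∧
      v (aeval ![z.1, z.2] H) ≤ v (p : ℂ) ^ 2}.Finite := by
  classical
  have := Fact.mk hp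
  set S : Set (ℂ × ℂ) := {z : ℂ × ℂ | (∃ N : ℕ, N.Coprime p ∧ z.1 ^ N = 1 ∧ z.2 ^ N = 1) ∧
      v (aeval ![z.1, z.2] H) ≤ v (p : ℂ) ^ 2} with hSdef
  by_contra hinf
  have hinf' : Infinite S := Set.infinite_coe_iff.2 hinf
  have hpp : 0 < v (p : ℂ) := by rw [AbsoluteValue.pos_iff]; exact_mod_cast hp.ne_zero
  have hp2 : v (p : ℂ) ^ 2 < 1 := by nlinarith
  have hNpos : ∀ N : ℕ, N.Coprime p → 0 < N := by
    intro N hN
    rcases Nat.eq_zero_or_pos N with rfl | h0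
    · exact absurd (by simpa using hN) hp.one_lt.ne'
    · exact h0
  have hS : ∀ z ∈ S, v z.1 = 1 ∧ v z.2 = 1 := by
    rintro z ⟨⟨N, hN, hx, hy⟩, -⟩
    exact ⟨val_root (hNpos N hN) hx, val_root (hNpos N hN) hy⟩
  set U : Ultrafilter S := Filter.hyperfilter S with hU
  set Q := limIdeal hv hS U with hQdef
  have hQ : Q.IsPrime := isPrime_limIdeal hv hS U
  have hpQ : C (p : ℤ) ∈ Q := by
    refine Filter.Eventually.of_forall fun s => ?_
    rw [aeval_C]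
    have : algebraMap ℤ ℂ p = (p : ℂ) := by simp
    rw [this]
    exact hvp
  have hHQ : H ∈ Q := Filter.Eventually.of_forall fun s => lt_of_le_of_lt s.2.2 hp2
  obtain ⟨B, hB⟩ := exists_frob hp H 1
  rw [pow_one] at hB
  have hBQ : B ∈ Q := by
    refine Filter.Eventually.of_forall fun s => ?_
    obtain ⟨⟨N, hN, hx, hy⟩, hs⟩ := s.2
    have h1 := unram_sq hv hp hvp H hN hx hy hs
    have h2 := congrArg (aeval ![s.1.1, s.1.2]) hB
    rw [map_pow, map_add, aeval_expand', map_mul, aeval_C] at h2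
    have h3 : algebraMap ℤ ℂ p = (p : ℂ) := by simp
    rw [h3] at h2
    have h4 : (p : ℂ) * aeval ![s.1.1, s.1.2] B =
        (aeval ![s.1.1, s.1.2] H) ^ p + -(aeval ![s.1.1 ^ p, s.1.2 ^ p] H) := by rw [h2]; ring
    have h5 : v ((p : ℂ) * aeval ![s.1.1, s.1.2] B) ≤ v (p : ℂ) ^ 2 := by
      rw [h4]
      refine (hv _ _).trans (max_le ?_ ?_)
      · rw [map_pow]
        exact (pow_le_of_le_one (v.nonneg _) (hs.trans hp2.le) hp.ne_zero).trans hs
      · rw [v.map_neg]; exact h1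
    rw [map_mul, sq] at h5
    exact lt_of_le_of_lt (le_of_mul_le_mul_left h5 hpp) hvp
  have hX0 : (X 0 : MvPolynomial (Fin 2) ℤ) ∉ Q := by
    intro h
    obtain ⟨s, hs⟩ := (mem_limIdeal.1 h).exists
    rw [aeval_X] at hs
    exact absurd (hS s.1 s.2).1 hs.ne
  have hY0 : (X 1 : MvPolynomial (Fin 2) ℤ) ∉ Q := by
    intro h
    obtain ⟨s, hs⟩ := (mem_limIdeal.1 h).exists
    rw [aeval_X] at hs
    exact absurd (hS s.1 s.2).2 hs.ne
  have hroot : ∀ i : Fin 2, ∀ n : ℕ, X i ^ n - 1 ∈ Q → ∀ᶠ s : S in (U : Filter S),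
      (![s.1.1, s.1.2] i) ^ n = 1 := by
    intro i n h1
    filter_upwards [mem_limIdeal.1 h1] with s hs
    rw [map_sub, map_pow, aeval_X, map_one] at hs
    obtain ⟨⟨N, hN, hx, hy⟩, -⟩ := s.2
    refine eq_one_of_near hv hvp hN ?_ hs
    rw [← pow_mul, mul_comm, pow_mul]
    fin_cases i
    · change (s.1.1 ^ N) ^ n = 1; rw [hx, one_pow]
    · change (s.1.2 ^ N) ^ n = 1; rw [hy, one_pow]
  have hnot : ¬ ((∃ n, 0 < n ∧ X 0 ^ n - 1 ∈ Q) ∧ (∃ n, 0 < n ∧ X 1 ^ n - 1 ∈ Q)) := by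
    rintro ⟨⟨n, hn, hxn⟩, ⟨m, hm, hym⟩⟩
    have h1 := (hroot 0 n hxn).and (hroot 1 m hym)
    have hfin : ∀ k : ℕ, 0 < k → {z : ℂ | z ^ k = 1}.Finite := by
      intro k hk
      have h2 : {z : ℂ | z ^ k = 1} ⊆ ((Polynomial.nthRoots k (1 : ℂ)).toFinset : Set ℂ) := by
        intro z hz
        rw [Finset.mem_coe, Multiset.mem_toFinset, Polynomial.mem_nthRoots hk]
        exact hz
      exact (Finset.finite_toSet _).subset h2
    have h3 : {s : S | (![s.1.1, s.1.2] 0) ^ n = 1 ∧ (![s.1.1, s.1.2] 1) ^ m = 1}.Finite := by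
      have h4 : ({z : ℂ × ℂ | z.1 ^ n = 1 ∧ z.2 ^ m = 1}).Finite :=
        ((hfin n hn).prod (hfin m hm)).subset fun z hz => ⟨hz.1, hz.2⟩
      exact (h4.preimage (Subtype.val_injective.injOn)).subset fun s hs => hs
    exact Filter.notMem_hyperfilter_of_finite h3 h1
  obtain ⟨u, w, huw, hu, hw, hstab⟩ := exists_eul hp hQ hpQ hX0 hY0 hnot hB hHQ hBQ hP₁ hP₂ h₁ h₂
  -- the weights
  have hwt : ∀ m ∈ H.support, ∀ m' ∈ H.support, |wt u w m - wt u w m'| < p := by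
    intro m hm m' hm'
    have hb : ∀ i : Fin 2, ∀ m ∈ H.support, ((m i : ℕ) : ℤ) ≤ D := by
      intro i m hm
      exact_mod_cast (monomial_le_degreeOf i hm).trans (hD i)
    have hs : (Nat.sqrt p : ℤ) * Nat.sqrt p ≤ p := by exact_mod_cast Nat.sqrt_le p
    have hs0 : (0 : ℤ) ≤ Nat.sqrt p := by positivity
    have h1 : ∀ (t : ℤ) (i : Fin 2), |t| ≤ Nat.sqrt p →
        |t * m i - t * m' i| ≤ Nat.sqrt p * D := by
      intro t i ht
      rw [← mul_sub, abs_mul]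
      have h2 : |((m i : ℕ) : ℤ) - (m' i : ℕ)| ≤ D := by
        rw [abs_le]
        have h3 := hb i m hm
        have h4 := hb i m' hm'
        constructor <;> omega
      exact mul_le_mul ht h2 (abs_nonneg _) hs0
    have h2 : |wt u w m - wt u w m'| ≤ 2 * (Nat.sqrt p * D) := by
      have h3 : wt u w m - wt u w m' = (u * m 0 - u * m' 0) + (w * m 1 - w * m' 1) := by
        rw [wt, wt]; ring
      rw [h3]
      refine (abs_add_le _ _).trans ?_
      linarith [h1 u 0 hu, h1 w 1 hw]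
    refine lt_of_le_of_lt h2 ?_
    have hpD' : 4 * (D : ℤ) ^ 2 < p := by exact_mod_cast hpD
    by_contra hcon
    push Not at hcon
    have hp0 : (0 : ℤ) < p := by exact_mod_cast hp.pos
    nlinarith [mul_le_mul hcon hcon hp0.le (by positivity : (0 : ℤ) ≤ 2 * (Nat.sqrt p * D)),
      mul_le_mul_of_nonneg_left hs (by positivity : (0 : ℤ) ≤ 4 * (D : ℤ) ^ 2)]
  have hpart := fun e => part_mem hQ hp hpQ hstab hHQ hwt e
  have hev : ∀ᶠ s : S in (U : Filter S), ∀ e ∈ H.support.image (wt u w),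
      v (aeval ![s.1.1, s.1.2] (part u w e H)) < 1 := by
    rw [Filter.eventually_all_finset]
    exact fun e _ => hpart e
  obtain ⟨s, hs⟩ := hev.exists
  obtain ⟨e, he⟩ := hH s.1.1 s.1.2 (hS s.1 s.2).1 (hS s.1 s.2).2 u w huw
  have h1 : aeval ![s.1.1, s.1.2] (part u w e H) =
      ∑ m ∈ H.support with u * m 0 + w * m 1 = e, ((H.coeff m : ℤ) : ℂ) * s.1.1 ^ m 0 * s.1.2 ^ m 1 := by
    rw [part, map_sum]
    refine Finset.sum_congr rfl fun m _ => ?_
    rw [aeval_monomial, Finsupp.prod_fintype _ _ (fun i => pow_zero _), Fin.prod_univ_two]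
    simp [mul_assoc]
  rw [← h1] at he
  by_cases hmem : e ∈ H.support.image (wt u w)
  · exact absurd he (hs e hmem).ne
  · have h2 : part u w e H = 0 := by
      rw [part, Finset.filter_false_of_mem, Finset.sum_empty]
      intro m hm h3
      exact hmem (mem_image.2 ⟨m, hm, h3⟩)
    rw [h2, map_zero, map_zero] at he
    exact zero_ne_one he

end Pool.Agent.Helper81.DL
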