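import Pool.Agent.Helper36.DL.Moebius

/-! # A uniform bound for the number of zeros of a function on a curve -/

open MvPolynomial Finset

namespace Pool.Agent.Helper81.DL
open Pool.Agent.Helper11.ZP Pool.Agent.Helper11.ZU Pool.Agent.Helper36.DL

/-- a polynomial in two variables, as a polynomial in the second variable -/
noncomputable def toPP (g : MvPolynomial (Fin 2) ℂ) : Polynomial (Polynomial ℂ) :=
  aeval ![Polynomial.C Polynomial.X, Polynomial.X] g

lemma coeff_toPP (g : MvPolynomial (Fin 2) ℂ) (m' : Fin 2 →₀ ℕ) :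
    ((toPP g).coeff (m' 1)).coeff (m' 0) = g.coeff m' := by
  classical
  induction g using MvPolynomial.induction_on' with
  | monomial m a =>
    rw [toPP, aeval_monomial, Finsupp.prod_fintype _ _ (fun i => pow_zero _), Fin.prod_univ_two]
    simp only [Matrix.cons_val_zero, Matrix.cons_val_one]
    have h0 : algebraMap ℂ (Polynomial (Polynomial ℂ)) a = Polynomial.C (Polynomial.C a) := rfl
    rw [h0, ← Polynomial.C_pow, ← mul_assoc, ← Polynomial.C_mul, Polynomial.coeff_C_mul,
      Polynomial.coeff_X_pow, coeff_monomial]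
    by_cases h : m = m'
    · subst h
      rw [if_pos rfl, if_pos rfl, mul_one, Polynomial.coeff_C_mul, Polynomial.coeff_X_pow, if_pos rfl,
        mul_one]
    · rw [if_neg h]
      by_cases h1 : m' 1 = m 1
      · rw [if_pos h1, mul_one, Polynomial.coeff_C_mul, Polynomial.coeff_X_pow, if_neg, mul_zero]
        intro h2
        apply h
        ext i
        fin_cases i
        · exact h2.symm
        · exact h1.symm
      · rw [if_neg h1, mul_zero, Polynomial.coeff_zero]
  | add f g hf hg =>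
    have h1 : toPP (f + g) = toPP f + toPP g := by rw [toPP, map_add]; rfl
    rw [h1, Polynomial.coeff_add, Polynomial.coeff_add, hf, hg, coeff_add]

lemma coeff_toPP' (g : MvPolynomial (Fin 2) ℂ) (i j : ℕ) :
    ((toPP g).coeff j).coeff i = g.coeff (Finsupp.single 0 i + Finsupp.single 1 j) := by
  have h := coeff_toPP g (Finsupp.single 0 i + Finsupp.single 1 j)
  have h0 : (Finsupp.single (0 : Fin 2) i + Finsupp.single 1 j : Fin 2 →₀ ℕ) 0 = i := by simp
  have h1 : (Finsupp.single (0 : Fin 2) i + Finsupp.single 1 j : Fin 2 →₀ ℕ) 1 = j := by simp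
  rwa [h0, h1] at h

lemma natDegree_toPP {g : MvPolynomial (Fin 2) ℂ} {D : ℕ} (h : g.degreeOf 1 ≤ D) : (toPP g).natDegree ≤ D := by
  rw [Polynomial.natDegree_le_iff_coeff_eq_zero]
  intro j hj
  ext i
  rw [coeff_toPP', Polynomial.coeff_zero, ← notMem_support_iff]
  intro hm
  have h1 := monomial_le_degreeOf 1 hm
  have h2 : (Finsupp.single (0 : Fin 2) i + Finsupp.single 1 j : Fin 2 →₀ ℕ) 1 = j := by simp
  rw [h2] at h1
  omega

lemma natDegree_coeff_toPP {g : MvPolynomial (Fin 2) ℂ} {D : ℕ} (h : g.degreeOf 0 ≤ D) (j : ℕ) :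
    ((toPP g).coeff j).natDegree ≤ D := by
  rw [Polynomial.natDegree_le_iff_coeff_eq_zero]
  intro i hi
  rw [coeff_toPP', ← notMem_support_iff]
  intro hm
  have h1 := monomial_le_degreeOf 0 hm
  have h2 : (Finsupp.single (0 : Fin 2) i + Finsupp.single 1 j : Fin 2 →₀ ℕ) 0 = i := by simp
  rw [h2] at h1
  omega

lemma toPP_ne_zero {g : MvPolynomial (Fin 2) ℂ} (h : g ≠ 0) : toPP g ≠ 0 := by
  intro h0
  apply h
  ext m
  rw [← coeff_toPP, h0, Polynomial.coeff_zero, Polynomial.coeff_zero, coeff_zero]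

/-- substitution -/
noncomputable def sub {A : Type*} [CommRing A] [Algebra ℂ A] (a b : A) : Polynomial (Polynomial ℂ) →+* A :=
  Polynomial.eval₂RingHom ((Polynomial.aeval a : Polynomial ℂ →ₐ[ℂ] A) : Polynomial ℂ →+* A) b

lemma sub_C {A : Type*} [CommRing A] [Algebra ℂ A] (a b : A) (r : Polynomial ℂ) :
    sub a b (Polynomial.C r) = Polynomial.aeval a r := by
  rw [sub, Polynomial.coe_eval₂RingHom, Polynomial.eval₂_C]
  rfl

lemma sub_X {A : Type*} [CommRing A] [Algebra ℂ A] (a b : A) : sub a b Polynomial.X = b := by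
  rw [sub, Polynomial.coe_eval₂RingHom, Polynomial.eval₂_X]

lemma map_sub' {A A' : Type*} [CommRing A] [Algebra ℂ A] [CommRing A'] [Algebra ℂ A'] (ε : A →ₐ[ℂ] A')
    (a b : A) (F : Polynomial (Polynomial ℂ)) : ε (sub a b F) = sub (ε a) (ε b) F := by
  induction F using Polynomial.induction_on' with
  | add f g hf hg => rw [map_add, map_add, map_add, hf, hg]
  | monomial n r =>
    rw [← Polynomial.C_mul_X_pow_eq_monomial, map_mul, map_mul, map_mul, map_pow, map_pow, map_pow, sub_C,
      sub_C, sub_X, sub_X, ← Polynomial.aeval_algHom_apply]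

lemma sub_toPP {A : Type*} [CommRing A] [Algebra ℂ A] (a b : A) (g : MvPolynomial (Fin 2) ℂ) :
    sub a b (toPP g) = aeval ![a, b] g := by
  induction g using MvPolynomial.induction_on with
  | C r =>
    rw [toPP, aeval_C, aeval_C]
    have h0 : algebraMap ℂ (Polynomial (Polynomial ℂ)) r = Polynomial.C (Polynomial.C r) := rfl
    rw [h0, sub_C, Polynomial.aeval_C]
  | add f g hf hg =>
    have h1 : toPP (f + g) = toPP f + toPP g := by rw [toPP, map_add]; rfl
    rw [h1, map_add, map_add, hf, hg]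
  | mul_X f i hf =>
    have h1 : toPP (f * X i) = toPP f * ![Polynomial.C Polynomial.X, Polynomial.X] i := by
      rw [toPP, map_mul, aeval_X]; rfl
    rw [h1, map_mul, map_mul, hf, aeval_X]
    congr 1
    fin_cases i
    · change sub a b (Polynomial.C Polynomial.X) = a
      rw [sub_C, Polynomial.aeval_X]
    · change sub a b Polynomial.X = b
      rw [sub_X]

lemma coprime_minpoly {K L : Type*} [Field K] [Field L] [Algebra K L] {y : L} (hint : IsIntegral K y)
    {g : Polynomial K} (hg : Polynomial.aeval y g ≠ 0) : IsCoprime (minpoly K y) g := by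
  rw [(minpoly.irreducible hint).coprime_iff_not_dvd]
  exact fun h => hg ((minpoly.dvd_iff).1 h)

/-- an irreducible relation: the resultant with the other polynomials does not vanish -/
theorem exists_rel {L : Type} [Field L] [Algebra ℂ L] {x y : L} (hx : Transcendental ℂ x)
    {G : Polynomial (Polynomial ℂ)} (hG0 : G ≠ 0) (hG : sub x y G = 0) :
    ∃ F : Polynomial (Polynomial ℂ), F.natDegree ≠ 0 ∧ sub x y F = 0 ∧
      ∀ g : Polynomial (Polynomial ℂ), sub x y g ≠ 0 → Polynomial.resultant F g ≠ 0 := by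
  set K := FractionRing (Polynomial ℂ) with hK
  let _ : Algebra (Polynomial ℂ) L :=
    ((Polynomial.aeval x : Polynomial ℂ →ₐ[ℂ] L) : Polynomial ℂ →+* L).toAlgebra
  have hinj : Function.Injective (algebraMap (Polynomial ℂ) L) :=
    transcendental_iff_injective.1 hx
  let _ : Algebra K L := (IsFractionRing.lift hinj : K →+* L).toAlgebra
  have : IsScalarTower (Polynomial ℂ) K L := IsScalarTower.of_algebraMap_eq fun r =>
    (IsFractionRing.lift_algebraMap hinj r).symm
  have hsub : ∀ F : Polynomial (Polynomial ℂ), sub x y F =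
      Polynomial.aeval y (F.map (algebraMap (Polynomial ℂ) K)) := by
    intro F
    rw [Polynomial.aeval_map_algebraMap]
    rfl
  have hKinj : Function.Injective (algebraMap (Polynomial ℂ) K) := IsFractionRing.injective _ _
  have hint : IsIntegral K y := by
    rw [← isAlgebraic_iff_isIntegral]
    exact ⟨G.map (algebraMap (Polynomial ℂ) K), (Polynomial.map_ne_zero_iff hKinj).2 hG0, by rw [← hsub, hG]⟩
  obtain ⟨b, hb, hF⟩ := IsLocalization.integerNormalization_spec (nonZeroDivisors (Polynomial ℂ))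
    (minpoly K y)
  set F := IsLocalization.integerNormalization (nonZeroDivisors (Polynomial ℂ)) (minpoly K y) with hFdef
  have hb0 : algebraMap (Polynomial ℂ) K b ≠ 0 := by
    rw [Ne, map_eq_zero_iff _ hKinj]
    exact nonZeroDivisors.ne_zero hb
  have hF' : F.map (algebraMap (Polynomial ℂ) K) = Polynomial.C (algebraMap (Polynomial ℂ) K b) * minpoly K y := by
    rw [hF, Algebra.smul_def]
    rfl
  have hu : IsUnit (Polynomial.C (algebraMap (Polynomial ℂ) K b)) := Polynomial.isUnit_C.2 (isUnit_iff_ne_zero.2 hb0)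
  refine ⟨F, ?_, ?_, ?_⟩
  · rw [← Polynomial.natDegree_map_eq_of_injective hKinj F, hF', Polynomial.natDegree_C_mul hb0]
    exact (minpoly.natDegree_pos hint).ne'
  · rw [hsub, hF', map_mul, minpoly.aeval, mul_zero]
  · intro g hg h0
    rw [hsub] at hg
    have h1 : IsCoprime (minpoly K y) (g.map (algebraMap (Polynomial ℂ) K)) := coprime_minpoly hint hg
    have h2 : IsCoprime (F.map (algebraMap (Polynomial ℂ) K)) (g.map (algebraMap (Polynomial ℂ) K)) := by
      rw [hF']
      exact (isCoprime_mul_unit_left_left hu _ _).2 h1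
    have h3 := Polynomial.resultant_ne_zero _ _ h2
    rw [Polynomial.natDegree_map_eq_of_injective hKinj, Polynomial.natDegree_map_eq_of_injective hKinj,
      Polynomial.resultant_map_map, h0, map_zero] at h3
    exact h3 rfl

/-- the degree of the resultant -/
lemma natDegree_resultant {F g : Polynomial (Polynomial ℂ)} {m n N : ℕ} (hF : ∀ j, (F.coeff j).natDegree ≤ N)
    (hg : ∀ j, (g.coeff j).natDegree ≤ N) : (Polynomial.resultant F g m n).natDegree ≤ (m + n) * N := by
  rw [Polynomial.resultant, Matrix.det_apply]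
  refine Polynomial.natDegree_sum_le_of_forall_le _ _ fun σ _ => ?_
  refine (Polynomial.natDegree_smul_le _ _).trans ?_
  refine (Polynomial.natDegree_prod_le _ _).trans ?_
  refine (Finset.sum_le_card_nsmul _ _ N fun i _ => ?_).trans ?_
  · rw [Polynomial.sylvester, Matrix.of_apply]
    refine Fin.addCases (fun j => ?_) (fun j => ?_) i
    · rw [Fin.addCases_left]
      split_ifs
      · exact hg _
      · rw [Polynomial.natDegree_zero]; exact Nat.zero_le _
    · rw [Fin.addCases_right]
      split_ifs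
      · exact hF _
      · rw [Polynomial.natDegree_zero]; exact Nat.zero_le _
  · rw [Finset.card_univ, Fintype.card_fin, smul_eq_mul]

section curve

variable {n : ℕ} {Z : Set (Fin n → ℂ)}

lemma sub_fun_iff [hI : (vanishingIdeal ℂ Z).IsPrime] (k l : Fin n) (F : Polynomial (Polynomial ℂ)) :
    sub (toFun (V := Z) (X k)) (toFun (V := Z) (X l)) F = 0 ↔ ∀ z ∈ Z, sub (z k) (z l) F = 0 := by
  rw [← map_sub', toFun_eq_zero, mem_van]
  refine forall_congr' fun z => forall_congr' fun _ => ?_
  have h1 := map_sub' (aeval z : MvPolynomial (Fin n) ℂ →ₐ[ℂ] ℂ) (X k) (X l) F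
  rw [aeval_X, aeval_X, aeval_eq_eval] at h1
  rw [h1]

/-- two coordinates of a curve are dependent -/
lemma exists_dep (hZ : IsSubvariety Z) (h1 : dim Z = 1) (k l : Fin n) :
    ∃ g : MvPolynomial (Fin 2) ℂ, g ≠ 0 ∧ ∀ z ∈ Z, aeval ![z k, z l] g = 0 := by
  have hI := van_prime hZ
  have hdom : IsDomain (MvPolynomial (Fin n) ℂ ⧸ vanishingIdeal ℂ Z) := Ideal.Quotient.isDomain _
  set π : MvPolynomial (Fin n) ℂ →ₐ[ℂ] MvPolynomial (Fin n) ℂ ⧸ vanishingIdeal ℂ Z :=
    Ideal.Quotient.mkₐ ℂ (vanishingIdeal ℂ Z) with hπ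
  have hnot : ¬ AlgebraicIndependent ℂ ![π (X k), π (X l)] := by
    intro h
    have h2 := h.cardinalMk_le_trdeg
    have h3 : Algebra.trdeg ℂ (MvPolynomial (Fin n) ℂ ⧸ vanishingIdeal ℂ Z) < Cardinal.aleph0 :=
      trdeg_lt_aleph0_of_finiteType
    have h4 := Cardinal.toNat_le_toNat h2 h3
    have h5 : Cardinal.toNat (Algebra.trdeg ℂ (MvPolynomial (Fin n) ℂ ⧸ vanishingIdeal ℂ Z)) = 1 := h1
    rw [h5] at h4
    simp at h4
  rw [algebraicIndependent_iff] at hnot
  push Not at hnot
  obtain ⟨g, hg, hg0⟩ := hnot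
  refine ⟨g, hg0, fun z hz => ?_⟩
  rw [← sub_toPP, ← map_sub', sub_toPP] at hg
  have h2 := mem_van.1 (Ideal.Quotient.eq_zero_iff_mem.1 hg) z hz
  have h3 := map_sub' (aeval z : MvPolynomial (Fin n) ℂ →ₐ[ℂ] ℂ) (X k) (X l) (toPP g)
  rw [sub_toPP, sub_toPP, aeval_X, aeval_X, aeval_eq_eval] at h3
  rw [← h3]
  exact h2

lemma transc_toFun [hI : (vanishingIdeal ℂ Z).IsPrime] (hc : NonConst Z) (k : Fin n) :
    Transcendental ℂ (toFun (V := Z) (X k)) := by
  rintro ⟨r, hr0, hr⟩
  rw [(IsAlgClosed.splits r).eq_prod_roots, map_mul, Polynomial.aeval_C, mul_eq_zero] at hr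
  rcases hr with h | h
  · rw [map_eq_zero, Polynomial.leadingCoeff_eq_zero] at h
    exact hr0 h
  · rw [map_multiset_prod, Multiset.map_map, Multiset.prod_eq_zero_iff, Multiset.mem_map] at h
    obtain ⟨c, -, h2⟩ := h
    rw [Function.comp_apply, map_sub, Polynomial.aeval_X, Polynomial.aeval_C] at h2
    apply toFun_sub_ne hc k c
    rw [map_sub, toFun_C]
    exact h2

lemma sub_eq_eval (c b : ℂ) (F : Polynomial (Polynomial ℂ)) :
    sub c b F = (F.map (Polynomial.evalRingHom c)).eval b := by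
  rw [Polynomial.eval_map, ← Polynomial.coe_aeval_eq_evalRingHom]
  rfl

/-- the fibres of a coordinate are bounded -/
theorem fiber_bound (hZ : IsSubvariety Z) (h1 : dim Z = 1) (hc : NonConst Z) (k : Fin n) :
    ∃ B : ℕ, ∀ c : ℂ, {z | z ∈ Z ∧ z k = c}.Finite ∧ {z | z ∈ Z ∧ z k = c}.ncard ≤ B := by
  classical
  have hfin : ∀ c : ℂ, {z | z ∈ Z ∧ z k = c}.Finite := by
    intro c
    refine (finite_section hZ h1.le (sub_notMem hc k c)).subset ?_
    rintro z ⟨hz, hzk⟩
    refine ⟨hz, ?_⟩
    change eval z (X k - C c) = 0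
    rw [map_sub, eval_X, eval_C, hzk, sub_self]
  choose g hg0 hg using fun i => exists_dep hZ h1 k i
  have hA0 : ∏ i, (toPP (g i)).leadingCoeff ≠ 0 :=
    Finset.prod_ne_zero_iff.2 fun i _ => Polynomial.leadingCoeff_ne_zero.2 (toPP_ne_zero (hg0 i))
  set A : Polynomial ℂ := ∏ i, (toPP (g i)).leadingCoeff with hA
  refine ⟨∏ i, (toPP (g i)).natDegree + ∑ c ∈ A.roots.toFinset, {z | z ∈ Z ∧ z k = c}.ncard,
    fun c => ⟨hfin c, ?_⟩⟩
  by_cases hcS : c ∈ A.roots.toFinset
  · refine le_trans ?_ (Nat.le_add_left _ _)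
    exact Finset.single_le_sum (f := fun c => {z | z ∈ Z ∧ z k = c}.ncard) (fun _ _ => Nat.zero_le _) hcS
  · refine le_trans ?_ (Nat.le_add_right _ _)
    rw [Multiset.mem_toFinset, Polynomial.mem_roots hA0, Polynomial.IsRoot.def, hA, Polynomial.eval_prod,
      Finset.prod_eq_zero_iff] at hcS
    push Not at hcS
    set P : Fin n → Polynomial ℂ := fun i => (toPP (g i)).map (Polynomial.evalRingHom c) with hP
    have hP0 : ∀ i, P i ≠ 0 := by
      intro i h0
      have h2 := congrArg (fun P => Polynomial.coeff P (toPP (g i)).natDegree) h0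
      simp only [hP, Polynomial.coeff_map, Polynomial.coeff_zero, Polynomial.coeff_natDegree,
        Polynomial.coe_evalRingHom] at h2
      exact hcS i (mem_univ i) h2
    have hsub : {z | z ∈ Z ∧ z k = c} ⊆ (Fintype.piFinset fun i => (P i).roots.toFinset : Finset (Fin n → ℂ)) := by
      rintro z ⟨hz, hzk⟩
      rw [Finset.mem_coe, Fintype.mem_piFinset]
      intro i
      rw [Multiset.mem_toFinset, Polynomial.mem_roots (hP0 i), Polynomial.IsRoot.def, hP, ← sub_eq_eval,
        sub_toPP, ← hzk]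
      exact hg i z hz
    refine (Set.ncard_le_ncard hsub (Finset.finite_toSet _)).trans ?_
    rw [Set.ncard_coe_finset, Fintype.card_piFinset]
    refine Finset.prod_le_prod' fun i _ => ?_
    refine (Multiset.toFinset_card_le _).trans ((Polynomial.card_roots' _).trans ?_)
    exact Polynomial.natDegree_map_le

/-- **the number of zeros** on a curve of the polynomials of bounded degree in two coordinates is bounded -/
theorem count (hZ : IsSubvariety Z) (h1 : dim Z = 1) (hc : NonConst Z) (k l : Fin n) (D : ℕ) :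
    ∃ B : ℕ, ∀ g : MvPolynomial (Fin 2) ℂ, g.degreeOf 0 ≤ D → g.degreeOf 1 ≤ D →
      (∃ z ∈ Z, eval ![z k, z l] g ≠ 0) →
        {z | z ∈ Z ∧ eval ![z k, z l] g = 0}.Finite ∧ {z | z ∈ Z ∧ eval ![z k, z l] g = 0}.ncard ≤ B := by
  classical
  have hI := van_prime hZ
  obtain ⟨B', hB'⟩ := fiber_bound hZ h1 hc k
  obtain ⟨g₀, hg₀, hg₀Z⟩ := exists_dep hZ h1 k l
  obtain ⟨F, hF0, hF, hres⟩ := exists_rel (transc_toFun hc k) (y := toFun (V := Z) (X l)) (toPP_ne_zero hg₀)
    ((sub_fun_iff k l _).2 fun z hz => by rw [sub_toPP]; exact hg₀Z z hz)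
  rw [sub_fun_iff] at hF
  set N := max D (F.support.sup fun j => (F.coeff j).natDegree) with hN
  have hFN : ∀ j, (F.coeff j).natDegree ≤ N := by
    intro j
    by_cases hj : j ∈ F.support
    · exact le_trans (Finset.le_sup (f := fun j => (F.coeff j).natDegree) hj) (le_max_right _ _)
    · rw [Polynomial.notMem_support_iff.1 hj, Polynomial.natDegree_zero]
      exact Nat.zero_le _
  refine ⟨(F.natDegree + D) * N * B', fun g h0 h1' hgZ => ?_⟩
  obtain ⟨z₀, hz₀, hz₀g⟩ := hgZ
  set r := Polynomial.resultant F (toPP g) with hr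
  have hr0 : r ≠ 0 := by
    refine hres _ fun h => hz₀g ?_
    have h2 := (sub_fun_iff k l _).1 h z₀ hz₀
    rwa [sub_toPP, aeval_eq_eval] at h2
  have hrdeg : r.natDegree ≤ (F.natDegree + D) * N := by
    refine (natDegree_resultant hFN fun j => (natDegree_coeff_toPP h0 j).trans (le_max_left _ _)).trans ?_
    exact Nat.mul_le_mul_right _ (Nat.add_le_add_left (natDegree_toPP h1') _)
  have hroot : ∀ z ∈ Z, eval ![z k, z l] g = 0 → r.eval (z k) = 0 := by
    intro z hz hgz
    obtain ⟨a, b, -, -, hab⟩ := Polynomial.exists_mul_add_mul_eq_C_resultant F (toPP g) le_rfl le_rfl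
      (Or.inl hF0)
    have h2 := congrArg (sub (z k) (z l)) hab
    rw [map_add, map_mul, map_mul, hF z hz, zero_mul, zero_add, sub_toPP, aeval_eq_eval, hgz, zero_mul,
      sub_C, Polynomial.coe_aeval_eq_eval] at h2
    exact h2.symm
  set T : Finset (Fin n → ℂ) := r.roots.toFinset.biUnion fun c => (hB' c).1.toFinset with hT
  have hsub : {z | z ∈ Z ∧ eval ![z k, z l] g = 0} ⊆ (T : Set (Fin n → ℂ)) := by
    rintro z ⟨hz, hgz⟩
    rw [Finset.mem_coe, hT, Finset.mem_biUnion]
    refine ⟨z k, ?_, ?_⟩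
    · rw [Multiset.mem_toFinset, Polynomial.mem_roots hr0]
      exact hroot z hz hgz
    · rw [Set.Finite.mem_toFinset]
      exact ⟨hz, rfl⟩
  refine ⟨(Finset.finite_toSet T).subset hsub, (Set.ncard_le_ncard hsub (Finset.finite_toSet _)).trans ?_⟩
  rw [Set.ncard_coe_finset]
  refine (Finset.card_biUnion_le_card_mul _ _ B' fun c _ => ?_).trans ?_
  · rw [← Set.ncard_eq_toFinset_card _ (hB' c).1]
    exact (hB' c).2
  · refine Nat.mul_le_mul_right _ ?_
    exact (Multiset.toFinset_card_le _).trans ((Polynomial.card_roots' _).trans hrdeg)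

end curve

end Pool.Agent.Helper81.DL
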