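import Pool.Agent.Helper92.ZT.Density
import Pool.Agent.Helper92.ZT.Height

/-! # Almost all rational vectors have a large prime in the denominator and do not satisfy a given equation
modulo this prime -/

open Finset Filter MvPolynomial

namespace Pool.Agent.Helper81.DL
open Pool.Agent.Helper20.ZT

lemma cast_eval {σ : Type*} {p : ℕ} (P : MvPolynomial σ ℤ) (u : σ → ℤ) :
    ((eval u P : ℤ) : ZMod p) = eval (fun i => ((u i : ℤ) : ZMod p)) (P.map (Int.castRingHom (ZMod p))) := by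
  have h := MvPolynomial.map_eval (Int.castRingHom (ZMod p)) u P
  exact h

lemma dvd_eval_iff {σ : Type*} {p : ℕ} (P : MvPolynomial σ ℤ) {u w : σ → ℤ} (h : ∀ i, (p : ℤ) ∣ u i - w i) :
    (p : ℤ) ∣ eval u P ↔ (p : ℤ) ∣ eval w P := by
  rw [← ZMod.intCast_zmod_eq_zero_iff_dvd, ← ZMod.intCast_zmod_eq_zero_iff_dvd, cast_eval, cast_eval]
  have h1 : (fun i => ((u i : ℤ) : ZMod p)) = fun i => ((w i : ℤ) : ZMod p) := by
    funext i
    have h2 := (ZMod.intCast_zmod_eq_zero_iff_dvd _ p).2 (h i)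
    rw [Int.cast_sub, sub_eq_zero] at h2
    exact h2
  rw [h1]

/-- the number of vectors modulo `p ^ 2` at which `P` is a unit -/
lemma count_G {N p : ℕ} (hp : p.Prime) {P : MvPolynomial (Fin N) ℤ}
    (hmap : P.map (Int.castRingHom (ZMod p)) ≠ 0) (hdeg : 2 * P.totalDegree ≤ p) :
    ((p : ℝ) ^ 2) ^ N / 2 ≤
      (Set.ncard {u | (∀ i, 0 ≤ u i ∧ u i < (p : ℤ) ^ 2) ∧ u ∈ {u : Fin N → ℤ | ¬ (p : ℤ) ∣ eval u P}} : ℝ) := by
  classical
  have := Fact.mk hp
  have hp0 : (0 : ℝ) < p := by exact_mod_cast hp.pos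
  set P' := P.map (Int.castRingHom (ZMod p)) with hP'
  have hd' : P'.totalDegree ≤ P.totalDegree :=
    Finset.sup_mono (MvPolynomial.support_map_subset _ _)
  have hSZ := MvPolynomial.schwartz_zippel_totalDegree hmap (univ : Finset (ZMod p))
  set Zs := (Fintype.piFinset fun _ : Fin N => (univ : Finset (ZMod p))).filter (fun x => eval x P' = 0) with hZs
  set NZ := (Fintype.piFinset fun _ : Fin N => (univ : Finset (ZMod p))).filter (fun x => ¬ eval x P' = 0) with hNZ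
  have hsum : Zs.card + NZ.card = p ^ N := by
    rw [hZs, hNZ, card_filter_add_card_filter_not, Fintype.card_piFinset, prod_const, card_univ, card_univ,
      Fintype.card_fin, ZMod.card]
  have hZle : (Zs.card : ℝ) ≤ (p : ℝ) ^ N / 2 := by
    have h1 : ((Zs.card : ℝ)) / (p : ℝ) ^ N ≤ P'.totalDegree / p := by
      have h2 : (((Zs.card : ℚ≥0) / ((univ : Finset (ZMod p)).card : ℚ≥0) ^ N : ℚ≥0) : ℝ) ≤
          ((P'.totalDegree / ((univ : Finset (ZMod p)).card : ℚ≥0) : ℚ≥0) : ℝ) := by exact_mod_cast hSZ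
      rw [card_univ, ZMod.card] at h2
      push_cast at h2
      exact h2
    rw [div_le_div_iff₀ (by positivity) hp0] at h1
    have h3 : (2 * P'.totalDegree : ℝ) ≤ p := by exact_mod_cast (Nat.mul_le_mul_left 2 hd').trans hdeg
    have h4 : (Zs.card : ℝ) * p ≤ (p : ℝ) ^ N / 2 * p := by
      refine h1.trans ?_
      have h5 : (0 : ℝ) ≤ (p : ℝ) ^ N := by positivity
      nlinarith
    exact le_of_mul_le_mul_right h4 hp0
  have hNZge : (p : ℝ) ^ N / 2 ≤ (NZ.card : ℝ) := by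
    have h1 : (Zs.card : ℝ) + NZ.card = (p : ℝ) ^ N := by exact_mod_cast hsum
    linarith
  set T : Finset (Fin N → ℤ) := (NZ ×ˢ (univ : Finset (Fin N → Fin p))).image
    fun q i => ((q.1 i).val : ℤ) + p * ((q.2 i : ℕ) : ℤ) with hT
  have hcardT : T.card = NZ.card * p ^ N := by
    rw [hT, card_image_of_injective, card_product, card_univ, Fintype.card_fun, Fintype.card_fin,
      Fintype.card_fin]
    rintro ⟨x, t⟩ ⟨x', t'⟩ h
    have key : ∀ i, x i = x' i ∧ t i = t' i := by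
      intro i
      have h1 := congrFun h i
      simp only at h1
      have h2 : (x i).val + p * (t i : ℕ) = (x' i).val + p * (t' i : ℕ) := by exact_mod_cast h1
      have h3 := ZMod.val_lt (x i)
      have h4 := ZMod.val_lt (x' i)
      have h5 : (x i).val = (x' i).val := by
        have := congrArg (· % p) h2
        simpa [Nat.add_mul_mod_self_left, Nat.mod_eq_of_lt h3, Nat.mod_eq_of_lt h4] using this
      refine ⟨ZMod.val_injective p h5, ?_⟩
      have h6 : p * (t i : ℕ) = p * (t' i : ℕ) := by omega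
      exact Fin.ext (Nat.eq_of_mul_eq_mul_left hp.pos h6)
    exact Prod.ext (funext fun i => (key i).1) (funext fun i => (key i).2)
  have hsub : (T : Set (Fin N → ℤ)) ⊆
      {u | (∀ i, 0 ≤ u i ∧ u i < (p : ℤ) ^ 2) ∧ u ∈ {u : Fin N → ℤ | ¬ (p : ℤ) ∣ eval u P}} := by
    intro u hu
    rw [Finset.mem_coe, hT, mem_image] at hu
    obtain ⟨⟨x, t⟩, hx, rfl⟩ := hu
    rw [mem_product, hNZ, mem_filter] at hx
    refine ⟨fun i => ⟨by positivity, ?_⟩, ?_⟩
    · have h3 : ((x i).val : ℤ) < p := by exact_mod_cast ZMod.val_lt (x i)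
      have h4 : (((t i : ℕ)) : ℤ) + 1 ≤ p := by exact_mod_cast (t i).2
      have h5 : (0 : ℤ) < p := by exact_mod_cast hp.pos
      simp only
      nlinarith
    · intro hd
      apply hx.1.2
      rw [← ZMod.intCast_zmod_eq_zero_iff_dvd, cast_eval] at hd
      rw [← hd]
      congr 2
      funext i
      push_cast
      rw [CharP.cast_eq_zero (ZMod p) p, zero_mul, add_zero, ZMod.natCast_val, ZMod.cast_id', id]
  have hfin : {u | (∀ i, 0 ≤ u i ∧ u i < (p : ℤ) ^ 2) ∧ u ∈ {u : Fin N → ℤ | ¬ (p : ℤ) ∣ eval u P}}.Finite := by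
    refine (Finset.finite_toSet (Fintype.piFinset fun _ : Fin N => Ico (0 : ℤ) ((p : ℤ) ^ 2))).subset ?_
    rintro u ⟨hu, -⟩
    rw [Finset.mem_coe, Fintype.mem_piFinset]
    exact fun i => mem_Ico.2 (hu i)
  have h1 := Set.ncard_le_ncard hsub hfin
  rw [Set.ncard_coe_finset, hcardT] at h1
  have h2 : ((NZ.card * p ^ N : ℕ) : ℝ) ≤ _ := Nat.cast_le.2 h1
  refine le_trans ?_ h2
  push_cast
  have h3 : ((p : ℝ) ^ 2) ^ N / 2 = (p : ℝ) ^ N / 2 * (p : ℝ) ^ N := by rw [← pow_mul, mul_comm 2 N, pow_mul]; ring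
  rw [h3]
  exact mul_le_mul_of_nonneg_right hNZge (by positivity)

/-- `P` does not vanish modulo the large primes -/
lemma map_ne_zero_of_large {N : ℕ} {P : MvPolynomial (Fin N) ℤ} (hP : P ≠ 0) :
    ∃ p₁ : ℕ, ∀ p : ℕ, p₁ ≤ p → P.map (Int.castRingHom (ZMod p)) ≠ 0 := by
  obtain ⟨m, hm⟩ := MvPolynomial.ne_zero_iff.1 hP
  refine ⟨(P.coeff m).natAbs + 1, fun p hp h0 => hm ?_⟩
  have h1 := congrArg (coeff m) h0
  rw [coeff_map, coeff_zero, eq_intCast, ZMod.intCast_zmod_eq_zero_iff_dvd] at h1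
  rw [← Int.natAbs_eq_zero]
  by_contra hne
  have h2 := Nat.le_of_dvd (Nat.pos_of_ne_zero hne) (Int.natCast_dvd.1 h1)
  omega

open Classical in
/-- **almost all rational vectors** `s` are of the form `s' / (p q')` with a prime `p ≥ p₀` which divides neither
`q'` nor `P(s')` -/
theorem density_poly {N : ℕ} (hN : 0 < N) {σ : Type} (e : Fin N ≃ σ) {P : MvPolynomial σ ℤ} (hP : P ≠ 0) (p₀ : ℕ) :
    Tendsto (fun H : ℕ => (((ratBox N H).filter fun s => ∃ (p : ℕ) (s' : σ → ℤ) (q' : ℤ), p.Prime ∧ p₀ ≤ p ∧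
      ¬ (p : ℤ) ∣ q' ∧ ¬ (p : ℤ) ∣ eval s' P ∧ ∀ i, s i = (s' (e i) : ℚ) / ((p : ℚ) * (q' : ℚ))).card : ℝ) /
        ((ratBox N H).card : ℝ)) atTop (nhds 1) := by
  set P₁ : MvPolynomial (Fin N) ℤ := rename e.symm P with hP₁
  have hP₁0 : P₁ ≠ 0 := fun h => hP (rename_injective _ e.symm.injective (by rw [← hP₁, h, map_zero]))
  obtain ⟨p₁, hp₁⟩ := map_ne_zero_of_large hP₁0
  refine to_height hN (fun s => ∃ (p : ℕ) (s' : σ → ℤ) (q' : ℤ), p.Prime ∧ p₀ ≤ p ∧
      ¬ (p : ℤ) ∣ q' ∧ ¬ (p : ℤ) ∣ eval s' P ∧ ∀ i, s i = (s' (e i) : ℚ) / ((p : ℚ) * (q' : ℚ))) ?_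
  refine density (n := N) (max p₀ (max p₁ (2 * P₁.totalDegree))) (fun p => {u | ¬ (p : ℤ) ∣ eval u P₁}) ?_ ?_
    (fun q b => ∃ (p : ℕ) (s' : σ → ℤ) (q' : ℤ), p.Prime ∧ p₀ ≤ p ∧
      ¬ (p : ℤ) ∣ q' ∧ ¬ (p : ℤ) ∣ eval s' P ∧ ∀ i, (b i : ℚ) / (q : ℚ) = (s' (e i) : ℚ) / ((p : ℚ) * (q' : ℚ))) ?_
  · intro p u w h hu hd
    exact hu ((dvd_eval_iff P₁ fun i => (dvd_pow_self _ two_ne_zero).trans (h i)).2 hd)
  · intro p hp hpp
    exact count_G hp (hp₁ p (le_trans (le_trans (le_max_left _ _) (le_max_right _ _)) hpp))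
      (le_trans (le_trans (le_max_right _ _) (le_max_right _ _)) hpp)
  · intro q b p q' u hp hpp hq hqq hq' hb hu
    have hcop : IsCoprime q' ((p : ℤ) ^ 2) :=
      (((Nat.prime_iff_prime_int.1 hp).coprime_iff_not_dvd.2 hq').symm).pow_right
    obtain ⟨k, l, hkl⟩ := hcop
    have hk : (p : ℤ) ^ 2 ∣ k * q' - 1 := ⟨-l, by linear_combination hkl⟩
    have hkq : ¬ (p : ℤ) ∣ q' * k := by
      intro hd
      have h1 : (p : ℤ) ∣ 1 := by
        have h2 : (1 : ℤ) = q' * k - (k * q' - 1) := by ring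
        rw [h2]
        exact dvd_sub hd ((dvd_pow_self _ two_ne_zero).trans hk)
      exact (Nat.prime_iff_prime_int.1 hp).not_isUnit (isUnit_of_dvd_one h1)
    have hk0 : k ≠ 0 := by
      rintro rfl
      rw [mul_zero] at hkq
      exact hkq (dvd_zero _)
    refine ⟨p, fun κ => b (e.symm κ) * k, q' * k, hp, le_trans (le_max_left _ _) hpp, hkq, ?_, fun i => ?_⟩
    · intro hd
      apply hu
      have h1 : eval (fun κ => b (e.symm κ) * k) P = eval (fun i => b i * k) P₁ := by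
        rw [hP₁, eval_rename]
        rfl
      rw [h1] at hd
      refine (dvd_eval_iff P₁ fun i => ?_).1 hd
      have h2 : b i * k - u i = k * (b i - q' * u i) + u i * (k * q' - 1) := by ring
      rw [h2]
      exact dvd_add (dvd_mul_of_dvd_right ((dvd_pow_self _ two_ne_zero).trans (hb i)) _)
        (dvd_mul_of_dvd_right ((dvd_pow_self _ two_ne_zero).trans hk) _)
    · change (b i : ℚ) / (q : ℚ) = ((b (e.symm (e i)) * k : ℤ) : ℚ) / ((p : ℚ) * ((q' * k : ℤ) : ℚ))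
      rw [Equiv.symm_apply_apply, hqq]
      have hp0 : (p : ℚ) ≠ 0 := by exact_mod_cast hp.ne_zero
      have hq0 : (q' : ℚ) ≠ 0 := by
        have : q' ≠ 0 := fun h => hq' (h ▸ dvd_zero _)
        exact_mod_cast this
      have hk0' : (k : ℚ) ≠ 0 := by exact_mod_cast hk0
      push_cast
      field_simp

end Pool.Agent.Helper81.DL
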