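import Mathlib

/-! # Derivations of fields of characteristic `p` -/

open MvPolynomial

namespace Pool.Agent.Helper81.DL

/-- A finitely generated field extension of `ZMod p` with an element `x ≠ 0` that is not a root of unity
has a nonzero derivation. -/
theorem exists_derivation {p : ℕ} [hp : Fact p.Prime] {F : Type} [Field F] [Algebra (ZMod p) F]
    [Algebra.EssFiniteType (ZMod p) F] {x : F} (hx : x ≠ 0) (hx' : ∀ n, 0 < n → x ^ n ≠ 1) :
    ∃ δ : Derivation (ZMod p) F F, δ ≠ 0 := by
  by_contra hcon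
  push Not at hcon
  have h1 : Subsingleton (Ω[F⁄ZMod p]) := by
    refine ⟨fun a b => ?_⟩
    rw [← sub_eq_zero, ← Module.forall_dual_apply_eq_zero_iff F]
    intro φ
    have h2 := hcon ((KaehlerDifferential.linearMapEquivDerivation (ZMod p) F) φ)
    have h3 : φ = 0 := by
      apply (KaehlerDifferential.linearMapEquivDerivation (ZMod p) F).injective
      rw [h2, map_zero]
    rw [h3, LinearMap.zero_apply]
  have h2 : Algebra.FormallyUnramified (ZMod p) F := ⟨h1⟩
  have h3 : Algebra.IsSeparable (ZMod p) F := Algebra.FormallyUnramified.isSeparable (ZMod p) F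
  have h4 : IsIntegral (ZMod p) x := (Algebra.IsSeparable.isIntegral (ZMod p) x)
  have h5 : FiniteDimensional (ZMod p) (IntermediateField.adjoin (ZMod p) {x}) :=
    IntermediateField.adjoin.finiteDimensional h4
  have h6 : Finite (IntermediateField.adjoin (ZMod p) {x}) := Module.finite_of_finite (ZMod p)
  set y : IntermediateField.adjoin (ZMod p) {x} :=
    ⟨x, IntermediateField.mem_adjoin_simple_self (ZMod p) x⟩ with hy
  have hy0 : y ≠ 0 := by
    intro h
    apply hx
    exact congrArg Subtype.val h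
  obtain ⟨n, hn, h7⟩ := isOfFinOrder_iff_pow_eq_one.1 (isOfFinOrder_of_finite (Units.mk0 y hy0))
  apply hx' n hn
  have h8 := congrArg (fun z : (IntermediateField.adjoin (ZMod p) {x})ˣ => ((z : _) : F)) h7
  simpa [hy] using h8

variable {p : ℕ} [hp : Fact p.Prime] {F : Type} [Field F] [Algebra (ZMod p) F]

lemma deriv_int (δ : Derivation (ZMod p) F F) (n : ℤ) : δ (n : F) = 0 := by
  have h1 : (n : F) = algebraMap (ZMod p) F n := by simp
  rw [h1, Derivation.map_algebraMap]

/-- chain rule -/
lemma deriv_aeval (δ : Derivation (ZMod p) F F) (x y : F) (f : MvPolynomial (Fin 2) ℤ) :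
    δ (aeval ![x, y] f) = aeval ![x, y] (pderiv 0 f) * δ x + aeval ![x, y] (pderiv 1 f) * δ y := by
  induction f using MvPolynomial.induction_on with
  | C a =>
    rw [pderiv_C, pderiv_C, aeval_C, map_zero, zero_mul, zero_mul, add_zero]
    have h1 : algebraMap ℤ F a = (a : F) := by simp
    rw [h1, deriv_int]
  | add f g hf hg =>
    rw [map_add, map_add, hf, hg, map_add, map_add, map_add, map_add]
    ring
  | mul_X f i hf =>
    rw [map_mul, Derivation.leibniz, hf, aeval_X, Derivation.leibniz, Derivation.leibniz, smul_eq_mul,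
      smul_eq_mul, smul_eq_mul, smul_eq_mul, smul_eq_mul, smul_eq_mul, map_add, map_add, map_mul, map_mul,
      map_mul, map_mul, aeval_X]
    fin_cases i
    · simp [pderiv_X]
      ring
    · simp [pderiv_X]
      ring

/-- A root of unity has derivative zero. -/
lemma deriv_root [CharP F p] (δ : Derivation (ZMod p) F F) {x : F} {n : ℕ} (hn : 0 < n) (h : x ^ n = 1) :
    δ x = 0 := by
  -- write `n = p ^ k * m` with `m` prime to `p`
  obtain ⟨k, m, hm, rfl⟩ := Nat.exists_eq_pow_mul_and_not_dvd hn.ne' p hp.out.ne_one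
  have h1 : x ^ m = 1 := by
    have h2 : (x ^ m - 1) ^ p ^ k = 0 := by
      rw [sub_pow_char_pow, one_pow, ← pow_mul, mul_comm, h, sub_self]
    exact sub_eq_zero.1 (pow_eq_zero_iff (pow_ne_zero _ hp.out.ne_zero) |>.1 h2)
  have hx : x ≠ 0 := by
    rintro rfl
    have hm0 : m ≠ 0 := by rintro rfl; exact hm (dvd_zero _)
    rw [zero_pow hm0] at h1
    exact zero_ne_one h1
  have h3 := congrArg δ h1
  rw [Derivation.leibniz_pow, Derivation.map_one_eq_zero, nsmul_eq_mul, smul_eq_mul] at h3
  have h4 : ((m : ℕ) : F) ≠ 0 := by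
    rw [Ne, CharP.cast_eq_zero_iff F p]
    exact hm
  have h5 : x ^ (m - 1) ≠ 0 := pow_ne_zero _ hx
  rw [mul_eq_zero, mul_eq_zero] at h3
  rcases h3 with h3 | h3 | h3
  · exact absurd h3 h4
  · exact absurd h3 h5
  · exact h3

end Pool.Agent.Helper81.DL
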