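import Pool.Agent.Helper20.DL.Digits

/-! # Integral polynomials at roots of unity of order prime to `p` -/

open Finset MvPolynomial

namespace Pool.Agent.Helper81.DL
open Pool.Agent.Helper20.DL Pool.Agent.Helper20.ZD

variable {v : AbsoluteValue ℂ ℝ}

lemma aeval_le_one (hv : IsNonarchimedean v) (f : MvPolynomial (Fin 2) ℤ) {x y : ℂ} (hx : v x ≤ 1)
    (hy : v y ≤ 1) : v (aeval ![x, y] f) ≤ 1 := by
  rw [← ev_eq_aeval, ev]
  refine val_sum_le hv _ _ zero_le_one fun m _ => ?_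
  rw [map_mul, map_mul, map_pow, map_pow]
  exact mul_le_one₀ (mul_le_one₀ (v_int_le hv _) (pow_nonneg (v.nonneg _) _)
    (pow_le_one₀ (v.nonneg _) hx)) (pow_nonneg (v.nonneg _) _) (pow_le_one₀ (v.nonneg _) hy)

/-- Frobenius congruence for `q = p ^ k` -/
lemma exists_frob {p : ℕ} (hp : p.Prime) (H : MvPolynomial (Fin 2) ℤ) (k : ℕ) :
    ∃ B : MvPolynomial (Fin 2) ℤ, H ^ p ^ k = expand (p ^ k) H + C (p : ℤ) * B := by
  have := Fact.mk hp
  have h1 : ∀ (k : ℕ) (f : MvPolynomial (Fin 2) (ZMod p)), expand (p ^ k) f = f ^ p ^ k := by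
    intro k
    induction k with
    | zero => intro f; rw [pow_zero, pow_one, expand_one]; rfl
    | succ k ih =>
      intro f
      rw [pow_succ', expand_mul, ih, map_pow, expand_zmod, ← pow_mul]
  have h2 : C (p : ℤ) ∣ H ^ p ^ k - expand (p ^ k) H := by
    rw [C_dvd_iff_zmod, map_sub, map_pow, map_expand, h1, sub_self]
  obtain ⟨B, hB⟩ := h2
  exact ⟨B, by rw [← hB]; ring⟩

lemma aeval_expand' (q : ℕ) (f : MvPolynomial (Fin 2) ℤ) (x y : ℂ) :
    aeval ![x, y] (expand q f) = aeval ![x ^ q, y ^ q] f := by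
  rw [aeval_expand]
  congr 2
  funext i
  fin_cases i <;> rfl

lemma exists_pow_eq {p : ℕ} {N : ℕ} (hN : N.Coprime p) :
    ∃ k, 0 < k ∧ ∀ x : ℂ, x ^ N = 1 → x ^ p ^ k = x := by
  rcases Nat.eq_zero_or_pos N with rfl | hN0
  · have hp1 : p = 1 := by simpa using hN
    exact ⟨1, one_pos, fun x _ => by rw [hp1]; simp⟩
  refine ⟨N.totient, Nat.totient_pos.2 hN0, fun x hx => ?_⟩
  have h1 : p ^ N.totient ≡ 1 [MOD N] := Nat.ModEq.pow_totient hN.symm
  rw [pow_eq_pow_mod _ hx, h1, ← pow_eq_pow_mod _ hx, pow_one]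

/-- The unramified lemma. -/
theorem unram (hv : IsNonarchimedean v) {p : ℕ} (hp : p.Prime) (H : MvPolynomial (Fin 2) ℤ) {N : ℕ}
    (hN : N.Coprime p) {x y : ℂ} (hx : x ^ N = 1) (hy : y ^ N = 1)
    (h : v (aeval ![x, y] H) < 1) : v (aeval ![x, y] H) ≤ v (p : ℂ) := by
  have hN0 : 0 < N := by
    rcases Nat.eq_zero_or_pos N with rfl | h0
    · exact absurd (by simpa using hN) hp.one_lt.ne'
    · exact h0
  obtain ⟨k, hk, hk'⟩ := exists_pow_eq hN
  obtain ⟨B, hB⟩ := exists_frob hp H k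
  have h1 := congrArg (aeval ![x, y]) hB
  rw [map_pow, map_add, aeval_expand', hk' x hx, hk' y hy, map_mul, aeval_C] at h1
  set c := aeval ![x, y] H
  have hq : 2 ≤ p ^ k := by
    calc 2 ≤ p := hp.two_le
      _ = p ^ 1 := (pow_one p).symm
      _ ≤ p ^ k := Nat.pow_le_pow_right hp.pos hk
  have h2 : c = c ^ p ^ k + -((algebraMap ℤ ℂ p) * aeval ![x, y] B) := by rw [h1]; ring
  have h3 : v ((algebraMap ℤ ℂ p) * aeval ![x, y] B) ≤ v (p : ℂ) := by
    rw [map_mul]
    have h4 := aeval_le_one hv B (val_root hN0 hx).le (val_root hN0 hy).le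
    have h5 : (algebraMap ℤ ℂ p) = (p : ℂ) := by simp
    rw [h5]
    exact mul_le_of_le_one_right (v.nonneg _) h4
  by_contra hcon
  push Not at hcon
  have h6 : v c ≤ max (v (c ^ p ^ k)) (v (-((algebraMap ℤ ℂ p) * aeval ![x, y] B))) := by
    conv_lhs => rw [h2]
    exact hv _ _
  rw [v.map_neg, le_max_iff] at h6
  rcases h6 with h6 | h6
  · rw [map_pow] at h6
    have hc0 : 0 < v c := lt_of_le_of_lt (v.nonneg _) hcon
    have h7 : v c ^ p ^ k ≤ v c ^ 2 := pow_le_pow_of_le_one (v.nonneg _) h.le hq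
    nlinarith
  · linarith

theorem unram_sq (hv : IsNonarchimedean v) {p : ℕ} (hp : p.Prime) (hvp : v (p : ℂ) < 1)
    (H : MvPolynomial (Fin 2) ℤ) {N : ℕ} (hN : N.Coprime p) {x y : ℂ} (hx : x ^ N = 1)
    (hy : y ^ N = 1) (h : v (aeval ![x, y] H) ≤ v (p : ℂ) ^ 2) :
    v (aeval ![x ^ p, y ^ p] H) ≤ v (p : ℂ) ^ 2 := by
  have hN0 : 0 < N := by
    rcases Nat.eq_zero_or_pos N with rfl | h0
    · exact absurd (by simpa using hN) hp.one_lt.ne'
    · exact h0
  have hpp : 0 < v (p : ℂ) := by rw [AbsoluteValue.pos_iff]; exact_mod_cast hp.ne_zero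
  have hp2 : v (p : ℂ) ^ 2 ≤ v (p : ℂ) := by nlinarith
  have hx1 := (val_root (v := v) hN0 hx).le
  have hy1 := (val_root (v := v) hN0 hy).le
  have hxp : (x ^ p) ^ N = 1 := by rw [← pow_mul, mul_comm, pow_mul, hx, one_pow]
  have hyp : (y ^ p) ^ N = 1 := by rw [← pow_mul, mul_comm, pow_mul, hy, one_pow]
  have hx1' := (val_root (v := v) hN0 hxp).le
  have hy1' := (val_root (v := v) hN0 hyp).le
  have hpc : (algebraMap ℤ ℂ p) = (p : ℂ) := by simp
  obtain ⟨k, hk, hk'⟩ := exists_pow_eq hN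
  obtain ⟨B, hB⟩ := exists_frob hp H k
  have hq : 2 ≤ p ^ k := by
    calc 2 ≤ p := hp.two_le
      _ = p ^ 1 := (pow_one p).symm
      _ ≤ p ^ k := Nat.pow_le_pow_right hp.pos hk
  have h1 := congrArg (aeval ![x, y]) hB
  rw [map_pow, map_add, aeval_expand', hk' x hx, hk' y hy, map_mul, aeval_C, hpc] at h1
  set c := aeval ![x, y] H with hc
  -- the value of `B`
  have hB1 : v (aeval ![x, y] B) ≤ v (p : ℂ) := by
    have h2 : (p : ℂ) * aeval ![x, y] B = c ^ p ^ k - c := by rw [h1]; ring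
    have h3 : v ((p : ℂ) * aeval ![x, y] B) ≤ v (p : ℂ) ^ 2 := by
      rw [h2, sub_eq_add_neg]
      refine (hv _ _).trans (max_le ?_ ?_)
      · rw [map_pow]
        refine (pow_le_pow_of_le_one (v.nonneg _) (by nlinarith [v.nonneg c]) hq).trans ?_
        have : v c ≤ v (p : ℂ) := h.trans hp2
        exact pow_le_pow_left₀ (v.nonneg _) this 2
      · rw [v.map_neg]; exact h
    rw [map_mul, sq] at h3
    exact le_of_mul_le_mul_left h3 hpp
  -- Frobenius with exponent one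
  have hfr : ∀ f : MvPolynomial (Fin 2) ℤ, v (aeval ![x, y] f) ≤ v (p : ℂ) →
      v (aeval ![x ^ p, y ^ p] f) ≤ v (p : ℂ) := by
    intro f hf
    obtain ⟨A, hA⟩ := exists_frob hp f 1
    rw [pow_one] at hA
    have h2 := congrArg (aeval ![x, y]) hA
    rw [map_pow, map_add, aeval_expand', map_mul, aeval_C, hpc] at h2
    have h3 : aeval ![x ^ p, y ^ p] f = (aeval ![x, y] f) ^ p + -((p : ℂ) * aeval ![x, y] A) := by
      rw [h2]; ring
    rw [h3]
    refine (hv _ _).trans (max_le ?_ ?_)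
    · rw [map_pow]
      refine le_trans ?_ hf
      exact pow_le_of_le_one (v.nonneg _) (hf.trans hvp.le) hp.ne_zero
    · rw [v.map_neg, map_mul]
      exact mul_le_of_le_one_right (v.nonneg _) (aeval_le_one hv A hx1 hy1)
  have h4 := congrArg (aeval ![x ^ p, y ^ p]) hB
  rw [map_pow, map_add, aeval_expand', hk' _ hxp, hk' _ hyp, map_mul, aeval_C, hpc] at h4
  set c' := aeval ![x ^ p, y ^ p] H with hc'
  have h5 : v c' ≤ v (p : ℂ) := hfr H (h.trans hp2)
  have h6 : c' = c' ^ p ^ k + -((p : ℂ) * aeval ![x ^ p, y ^ p] B) := by rw [h4]; ring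
  rw [h6]
  refine (hv _ _).trans (max_le ?_ ?_)
  · rw [map_pow]
    refine (pow_le_pow_of_le_one (v.nonneg _) (h5.trans hvp.le) hq).trans ?_
    exact pow_le_pow_left₀ (v.nonneg _) h5 2
  · rw [v.map_neg, map_mul, sq]
    exact mul_le_mul_of_nonneg_left (hfr B hB1) hpp.le

/-- integers prime to `p` are units -/
lemma val_coprime (hv : IsNonarchimedean v) {p : ℕ} (hvp : v (p : ℂ) < 1) {N : ℤ}
    (hN : IsCoprime N (p : ℤ)) : v (N : ℂ) = 1 := by
  obtain ⟨a, b, h⟩ := hN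
  refine le_antisymm (v_int_le hv N) ?_
  by_contra hcon
  push Not at hcon
  have h1 : (1 : ℂ) = (a : ℂ) * N + (b : ℂ) * (p : ℂ) := by
    have := congrArg (Int.cast : ℤ → ℂ) h
    push_cast at this
    exact this.symm
  have h2 : v (1 : ℂ) ≤ max (v ((a : ℂ) * N)) (v ((b : ℂ) * (p : ℂ))) := by
    conv_lhs => rw [h1]
    exact hv _ _
  rw [map_one, le_max_iff, map_mul, map_mul] at h2
  rcases h2 with h2 | h2
  · have := mul_le_of_le_one_left (v.nonneg (N : ℂ)) (v_int_le hv a)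
    linarith
  · have := mul_le_of_le_one_left (v.nonneg (p : ℂ)) (v_int_le hv b)
    linarith

/-- roots of unity of order prime to `p` in the same residue class are equal -/
lemma eq_one_of_near (hv : IsNonarchimedean v) {p : ℕ} (hvp : v (p : ℂ) < 1) {N : ℕ}
    (hN : N.Coprime p) {x : ℂ} (hx : x ^ N = 1) (h : v (x - 1) < 1) : x = 1 := by
  by_contra hne
  have h1 : ∑ i ∈ range N, x ^ i = 0 := by
    have := geom_sum_mul x N
    rw [hx, sub_self, mul_eq_zero] at this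
    exact this.resolve_right (sub_ne_zero.2 hne)
  rcases Nat.eq_zero_or_pos N with rfl | hN0
  · have hp1 : p = 1 := by simpa using hN
    rw [hp1] at hvp
    simp at hvp
  have hx1 := (val_root (v := v) hN0 hx).le
  have h2 : v (∑ i ∈ range N, (1 - x ^ i)) < 1 := by
    refine lt_of_le_of_lt (val_sum_le hv _ _ (v.nonneg (x - 1)) fun i _ => ?_) h
    have := v_pow_sub_pow_le hv (x := 1) (x' := x) (by simp) hx1 i
    rwa [one_pow, val_one_sub (x := x)] at this
  rw [sum_sub_distrib, h1, sub_zero, sum_const, card_range, nsmul_eq_mul, mul_one] at h2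
  have h3 := val_coprime hv hvp (N := (N : ℤ)) (Nat.isCoprime_iff_coprime.2 hN)
  rw [Int.cast_natCast] at h3
  linarith

end Pool.Agent.Helper81.DL
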