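import Pool.Agent.Helper81.DL.Deriv
import Pool.Agent.Helper81.DL.Unram

/-! # Solutions modulo `p ^ 2` in a field of characteristic `p`: an Euler derivation -/

open MvPolynomial

namespace Pool.Agent.Helper81.DL

/-- the derivatives of `Ψ = (H(X^p, Y^p) - H^p) / p` -/
lemma pderiv_expand' (p : ℕ) (i : Fin 2) (f : MvPolynomial (Fin 2) ℤ) :
    pderiv i (expand p f) = C (p : ℤ) * (X i ^ (p - 1) * expand p (pderiv i f)) := by
  induction f using MvPolynomial.induction_on with
  | C a => rw [expand_C, pderiv_C, map_zero, mul_zero, mul_zero]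
  | add f g hf hg => rw [map_add, map_add, map_add, hf, hg, map_add]; ring
  | mul_X f j hf =>
    rw [map_mul, expand_X, Derivation.leibniz, hf, Derivation.leibniz, map_add, smul_eq_mul, smul_eq_mul,
      smul_eq_mul, smul_eq_mul, map_mul, map_mul, expand_X, Derivation.leibniz_pow, nsmul_eq_mul,
      smul_eq_mul]
    by_cases h : i = j
    · subst h
      rw [pderiv_X_self, map_one]
      simp only [map_natCast, mul_one]
      ring
    · rw [pderiv_X_of_ne (Ne.symm h), map_zero]
      ring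

lemma deriv_psi {p : ℕ} (hp : p.Prime) {H B : MvPolynomial (Fin 2) ℤ}
    (hB : H ^ p = expand p H + C (p : ℤ) * B) (i : Fin 2) :
    pderiv i B = H ^ (p - 1) * pderiv i H - X i ^ (p - 1) * expand p (pderiv i H) := by
  have h1 := congrArg (pderiv i) hB
  rw [map_add, pderiv_expand', Derivation.leibniz_pow, nsmul_eq_mul, smul_eq_mul, Derivation.leibniz,
    pderiv_C, smul_zero, add_zero, smul_eq_mul] at h1
  have h2 : C (p : ℤ) * (pderiv i B) =
      C (p : ℤ) * (H ^ (p - 1) * pderiv i H - X i ^ (p - 1) * expand p (pderiv i H)) := by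
    have h3 : (C (p : ℤ) : MvPolynomial (Fin 2) ℤ) = ((p : ℕ) : MvPolynomial (Fin 2) ℤ) := by simp
    rw [h3] at h1 ⊢
    linear_combination -h1
  refine mul_left_cancel₀ ?_ h2
  rw [Ne, C_eq_zero]
  exact_mod_cast hp.ne_zero

variable {p : ℕ} [hp : Fact p.Prime] {F : Type} [Field F] [Algebra (ZMod p) F] [CharP F p]

lemma int_p_eq_zero : ((p : ℤ) : F) = 0 := by
  rw [Int.cast_natCast]; exact CharP.cast_eq_zero F p

lemma aeval_expand_eq (x y : F) (f : MvPolynomial (Fin 2) ℤ) :
    aeval ![x, y] (expand p f) = (aeval ![x, y] f) ^ p := by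
  obtain ⟨B, hB⟩ := exists_frob hp.out f 1
  rw [pow_one] at hB
  have h1 := congrArg (aeval ![x, y]) hB
  rw [map_pow, map_add, map_mul, aeval_C] at h1
  have h2 : algebraMap ℤ F p = 0 := by
    rw [eq_intCast, int_p_eq_zero]
  rw [h1, h2, zero_mul, add_zero]

/-- an algebraic element is zero or a root of unity -/
lemma exists_pow_of_root {y : F} (hy : y ≠ 0) {P : Polynomial ℤ}
    (hP : P.map (Int.castRingHom (ZMod p)) ≠ 0) (h : Polynomial.aeval y P = 0) :
    ∃ n, 0 < n ∧ y ^ n = 1 := by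
  have h4 : IsIntegral (ZMod p) y := by
    rw [← isAlgebraic_iff_isIntegral]
    refine ⟨P.map (Int.castRingHom (ZMod p)), hP, ?_⟩
    rw [Polynomial.aeval_def, Polynomial.eval₂_map]
    rw [Polynomial.aeval_def] at h
    have h5 : (algebraMap (ZMod p) F).comp (Int.castRingHom (ZMod p)) = algebraMap ℤ F :=
      RingHom.ext_int _ _
    rw [h5]
    exact h
  have h5 : FiniteDimensional (ZMod p) (IntermediateField.adjoin (ZMod p) {y}) :=
    IntermediateField.adjoin.finiteDimensional h4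
  have h6 : Finite (IntermediateField.adjoin (ZMod p) {y}) := Module.finite_of_finite (ZMod p)
  set z : IntermediateField.adjoin (ZMod p) {y} :=
    ⟨y, IntermediateField.mem_adjoin_simple_self (ZMod p) y⟩ with hz
  have hz0 : z ≠ 0 := fun h => hy (congrArg Subtype.val h)
  obtain ⟨n, hn, h7⟩ := isOfFinOrder_iff_pow_eq_one.1 (isOfFinOrder_of_finite (Units.mk0 z hz0))
  refine ⟨n, hn, ?_⟩
  have h8 := congrArg (fun z : (IntermediateField.adjoin (ZMod p) {y})ˣ => ((z : _) : F)) h7
  simpa [hz] using h8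

open Pool.Agent.Helper20.DL in
/-- The Euler derivation. -/
theorem exists_euler {x y : F} (hx : x ≠ 0) (hy : y ≠ 0) {H B : MvPolynomial (Fin 2) ℤ}
    (hB : H ^ p = expand p H + C (p : ℤ) * B) (hH0 : aeval ![x, y] H = 0) (hB0 : aeval ![x, y] B = 0)
    {A₁ B₁ A₂ B₂ : MvPolynomial (Fin 2) ℤ} {P₁ P₂ : Polynomial ℤ}
    (hP₁ : P₁.map (Int.castRingHom (ZMod p)) ≠ 0) (hP₂ : P₂.map (Int.castRingHom (ZMod p)) ≠ 0)
    (h₁ : A₁ * H + B₁ * pderiv 0 H = Polynomial.aeval (X 1) P₁)
    (h₂ : A₂ * H + B₂ * pderiv 1 H = Polynomial.aeval (X 0) P₂)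
    (δ : Derivation (ZMod p) F F) (hδ : ¬ (δ x = 0 ∧ δ y = 0)) :
    ∃ u w : ℤ, ¬ (u = 0 ∧ w = 0) ∧ |u| ≤ Nat.sqrt p ∧ |w| ≤ Nat.sqrt p ∧
      ∃ δ' : Derivation (ZMod p) F F, δ' x = u * x ∧ δ' y = w * y := by
  have hp1 : p - 1 ≠ 0 := by have := hp.out.two_le; omega
  set a := aeval ![x, y] (pderiv 0 H) with ha
  set b := aeval ![x, y] (pderiv 1 H) with hb
  have e1 : a * δ x + b * δ y = 0 := by
    have := deriv_aeval δ x y H
    rw [hH0, map_zero] at this
    exact this.symm
  have hψ : ∀ i : Fin 2, aeval ![x, y] (pderiv i B) =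
      -((![x, y] i) ^ (p - 1) * (aeval ![x, y] (pderiv i H)) ^ p) := by
    intro i
    rw [deriv_psi hp.out hB, map_sub, map_mul, map_mul, map_pow, map_pow, hH0, zero_pow hp1, zero_mul,
      aeval_expand_eq, aeval_X, zero_sub]
  have e2 : x ^ (p - 1) * a ^ p * δ x + y ^ (p - 1) * b ^ p * δ y = 0 := by
    have := deriv_aeval δ x y B
    rw [hB0, map_zero, hψ, hψ] at this
    simp only [Matrix.cons_val_zero, Matrix.cons_val_one] at this
    linear_combination this
  -- the two degenerate cases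
  have hay : a = 0 → δ y = 0 := by
    intro h0
    have h3 := congrArg (aeval ![x, y]) h₁
    rw [map_add, map_mul, map_mul, hH0, mul_zero, ← ha, h0, mul_zero, add_zero] at h3
    have h4 : aeval ![x, y] (Polynomial.aeval (X 1 : MvPolynomial (Fin 2) ℤ) P₁) =
        Polynomial.aeval y P₁ := by
      rw [← Polynomial.aeval_algHom_apply, aeval_X]; rfl
    rw [h4] at h3
    obtain ⟨n, hn, h5⟩ := exists_pow_of_root hy hP₁ h3.symm
    exact deriv_root δ hn h5
  have hbx : b = 0 → δ x = 0 := by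
    intro h0
    have h3 := congrArg (aeval ![x, y]) h₂
    rw [map_add, map_mul, map_mul, hH0, mul_zero, ← hb, h0, mul_zero, add_zero] at h3
    have h4 : aeval ![x, y] (Polynomial.aeval (X 0 : MvPolynomial (Fin 2) ℤ) P₂) =
        Polynomial.aeval x P₂ := by
      rw [← Polynomial.aeval_algHom_apply, aeval_X]; rfl
    rw [h4] at h3
    obtain ⟨n, hn, h5⟩ := exists_pow_of_root hx hP₂ h3.symm
    exact deriv_root δ hn h5
  by_cases ha0 : a = 0
  · have hy0 := hay ha0
    have hx0 : δ x ≠ 0 := fun h => hδ ⟨h, hy0⟩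
    refine ⟨1, 0, by simp, by simpa using Nat.succ_le_of_lt (Nat.sqrt_pos.2 hp.out.pos), by simp,
      (x / δ x) • δ, ?_, ?_⟩
    · rw [Derivation.smul_apply, smul_eq_mul]
      push_cast
      field_simp
    · rw [Derivation.smul_apply, hy0, smul_zero]
      push_cast
      ring
  by_cases hb0 : b = 0
  · have hx0 := hbx hb0
    have hy0 : δ y ≠ 0 := fun h => hδ ⟨hx0, h⟩
    refine ⟨0, 1, by simp, by simp, by simpa using Nat.succ_le_of_lt (Nat.sqrt_pos.2 hp.out.pos),
      (y / δ y) • δ, ?_, ?_⟩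
    · rw [Derivation.smul_apply, hx0, smul_zero]
      push_cast
      ring
    · rw [Derivation.smul_apply, smul_eq_mul]
      push_cast
      field_simp
  have hx0 : δ x ≠ 0 := by
    intro h
    rw [h, mul_zero, zero_add, mul_eq_zero] at e1
    exact hδ ⟨h, e1.resolve_left hb0⟩
  -- the ratio lies in the prime field
  have hpow : ∀ z : F, z ^ p = z ^ (p - 1) * z := by
    intro z
    rw [← pow_succ]
    congr 1
    have := hp.out.two_le
    omega
  have e3 : (x * a) ^ (p - 1) = (y * b) ^ (p - 1) := by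
    rw [hpow a, hpow b] at e2
    have h3 : a * δ x * ((x * a) ^ (p - 1) - (y * b) ^ (p - 1)) = 0 := by
      rw [mul_pow, mul_pow]
      linear_combination e2 - (y ^ (p - 1) * b ^ (p - 1)) * e1
    have h4 := (mul_eq_zero.1 h3).resolve_left (mul_ne_zero ha0 hx0)
    exact sub_eq_zero.1 h4
  set c := x * a / (y * b) with hc
  have hc1 : c ^ p = c := by
    rw [hpow, hc, div_pow, e3, div_self (pow_ne_zero _ (mul_ne_zero hy hb0)), one_mul]
  have hc2 : ∃ n : ℤ, c = n := by
    have h3 : c ∈ (⊥ : Subfield F) := (Subfield.mem_bot_iff_pow_eq_self F p).2 hc1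
    rw [Subfield.bot_eq_of_zMod_algebra p] at h3
    obtain ⟨z, hz⟩ := h3
    obtain ⟨n, rfl⟩ := ZMod.intCast_surjective z
    exact ⟨n, by rw [← hz]; simp⟩
  obtain ⟨n, hn⟩ := hc2
  obtain ⟨u, w, h0, hu, hw, hd⟩ := dirichlet hp.out 1 (-n)
  refine ⟨u, w, h0, hu, hw, (u * (x / δ x)) • δ, ?_, ?_⟩
  · rw [Derivation.smul_apply, smul_eq_mul]
    field_simp
  · rw [Derivation.smul_apply, smul_eq_mul]
    have h3 : (u : F) * (-n) = w := by
      have h4 : ((u * (-n) - w * 1 : ℤ) : F) = 0 := by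
        obtain ⟨k, hk⟩ := hd
        rw [hk]
        push_cast
        rw [CharP.cast_eq_zero F p, zero_mul]
      push_cast at h4
      linear_combination h4
    have h5 : δ y = -(a / b) * δ x := by
      field_simp
      linear_combination e1
    have h6 : x * a = c * (y * b) := by
      rw [hc]
      field_simp
    rw [h5, ← h3, ← hn]
    have h7 : (u : F) * (x / δ x) * (-(a / b) * δ x) = -(u * ((x * a) / b)) := by
      field_simp
    rw [h7, h6]
    field_simp

end Pool.Agent.Helper81.DL
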