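import Pool.Agent.Helper69.DL.First

/-! # Pairs of roots of unity near a curve to the first order: the general form -/

open MvPolynomial

namespace Pool.Agent.Helper81.DL
open Pool.Agent.Helper20.ZD Pool.Agent.Helper20.DL Pool.Agent.Helper22.DL Pool.Agent.Helper69.DL

variable {v : AbsoluteValue ℂ ℝ} {N : ℕ}

/-- the coefficients are `v`-integral -/
def IntPoly {σ : Type*} (v : AbsoluteValue ℂ ℝ) (S : MvPolynomial σ ℂ) : Prop := ∀ m, v (S.coeff m) ≤ 1

/-- the pairs of roots of unity of order prime to `p` which are near a point `(x 0, x 1)` with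
`H(x 0, x 1) = p W(u)`, up to terms of the first order `S 0 (u)`, `S 1 (u)`, where the `u i` are algebraic over
`x (e i)` modulo the maximal ideal -/
def pairsN (v : AbsoluteValue ℂ ℝ) (p : ℕ) (H : MvPolynomial (Fin 2) ℤ) (G : Fin N → MvPolynomial (Fin 2) ℤ)
    (e : Fin N → Fin 2) (S : Fin 2 → MvPolynomial (Fin N) ℂ) (W : MvPolynomial (Fin N) ℂ) : Set (ℂ × ℂ) :=
  {z : ℂ × ℂ | (∃ M : ℕ, M.Coprime p ∧ z.1 ^ M = 1 ∧ z.2 ^ M = 1) ∧ ∃ (x : Fin 2 → ℂ) (u : Fin N → ℂ),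
    (∀ i, v (u i) ≤ 1) ∧ (∀ i, v (ev (G i) (u i) (x (e i))) < 1) ∧
    v (ev H (x 0) (x 1) - p * eval u W) < v (p : ℂ) ∧
    v (x 0 - z.1 * (1 + p * eval u (S 0))) < v (p : ℂ) ∧
    v (x 1 - z.2 * (1 + p * eval u (S 1))) < v (p : ℂ)}

lemma IntPoly.eval_le {S : MvPolynomial (Fin N) ℂ} (hv : IsNonarchimedean v) (hS : IntPoly v S)
    {u : Fin N → ℂ} (hu : ∀ i, v (u i) ≤ 1) : v (eval u S) ≤ 1 := by
  rw [eval_eq']
  refine (Finset.induction_on S.support (motive := fun T => v (∑ m ∈ T, S.coeff m * ∏ i, u i ^ m i) ≤ 1) ?_ ?_)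
  · rw [Finset.sum_empty, map_zero]; exact zero_le_one
  · intro m T hm ih
    rw [Finset.sum_insert hm]
    refine (hv _ _).trans (max_le ?_ ih)
    rw [map_mul, map_prod]
    refine mul_le_one₀ (hS m) (Finset.prod_nonneg fun i _ => v.nonneg _) (Finset.prod_le_one (fun i _ => v.nonneg _) ?_)
    intro i _
    rw [map_pow]
    exact pow_le_one₀ (v.nonneg _) (hu i)

/-- the term of the first order of `H` along the curve, divided by `p` -/
noncomputable def firstN (H : MvPolynomial (Fin 2) ℤ) (S : Fin 2 → MvPolynomial (Fin N) ℂ)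
    (W : MvPolynomial (Fin N) ℂ) (z : ℂ × ℂ) (u : Fin N → ℂ) : ℂ :=
  eval u W - (z.1 * aeval ![z.1, z.2] (pderiv 0 H) * eval u (S 0) +
    z.2 * aeval ![z.1, z.2] (pderiv 1 H) * eval u (S 1))

/-- **the equations modulo the maximal ideal** at the points of `pairsN` -/
theorem pairsN_first (hv : IsNonarchimedean v) {p : ℕ} (hp : p.Prime) (hp2 : p ≠ 2) (hvp : v (p : ℂ) < 1)
    {H B : MvPolynomial (Fin 2) ℤ} (hB : H ^ p - expand p H = C (p : ℤ) * B)
    {G : Fin N → MvPolynomial (Fin 2) ℤ} {e : Fin N → Fin 2} {S : Fin 2 → MvPolynomial (Fin N) ℂ}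
    {W : MvPolynomial (Fin N) ℂ} (hS : ∀ j, IntPoly v (S j)) (hW : IntPoly v W) {z : ℂ × ℂ}
    (hz : z ∈ pairsN v p H G e S W) :
    v z.1 = 1 ∧ v z.2 = 1 ∧ v (ev H z.1 z.2) ≤ v (p : ℂ) ∧ ∃ u : Fin N → ℂ, (∀ i, v (u i) ≤ 1) ∧
      (∀ i, v (ev (G i) (u i) (![z.1, z.2] (e i))) < 1) ∧
      v (aeval ![z.1, z.2] B + firstN H S W z u ^ p) < 1 := by
  have hvp0 : 0 < v (p : ℂ) := (AbsoluteValue.pos_iff v).2 (by exact_mod_cast hp.ne_zero)
  have hp0 : (p : ℂ) ≠ 0 := by exact_mod_cast hp.ne_zero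
  obtain ⟨⟨M, hM, h1, h2⟩, x, u, hu, hG, hxy, hx, hy⟩ := hz
  have hMpos : 0 < M := by
    rcases Nat.eq_zero_or_pos M with rfl | h
    · exact absurd ((Nat.coprime_zero_left p).1 hM) hp.one_lt.ne'
    · exact h
  have hz1 : v z.1 = 1 := val_root hMpos h1
  have hz2 : v z.2 = 1 := val_root hMpos h2
  have hWu := hW.eval_le hv hu
  have nx := near_of_first hv hvp0 hz1 ((hS 0).eval_le hv hu) hx
  have ny := near_of_first hv hvp0 hz2 ((hS 1).eval_le hv hu) hy
  have hxv : v (x 0) ≤ 1 := v_le_of_near hv hz1.le (nx.trans hvp.le)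
  have hyv : v (x 1) ≤ 1 := v_le_of_near hv hz2.le (ny.trans hvp.le)
  have hxyle : v (ev H (x 0) (x 1)) ≤ v (p : ℂ) := by
    refine v_le_of_near hv (y := p * eval u W) ?_ hxy.le
    rw [map_mul]
    exact mul_le_of_le_one_right hvp0.le hWu
  have hev : v (ev H z.1 z.2) ≤ v (p : ℂ) := by
    have h3 := ev_sub_le hv H hxv hz1.le hyv hz2.le
    have h4 : v (ev H (x 0) (x 1) - ev H z.1 z.2) ≤ v (p : ℂ) := h3.trans (max_le nx ny)
    refine v_le_of_near hv hxyle ?_
    rw [← map_neg_eq_map v, neg_sub]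
    exact h4
  have hη : ∀ i, v (![z.1, z.2] i) ≤ 1 := by
    intro i; fin_cases i
    · exact hz1.le
    · exact hz2.le
  have hξ : ∀ i, v (x i) ≤ 1 := by
    intro i; fin_cases i
    · exact hxv
    · exact hyv
  have hd : ∀ i, v (x i - ![z.1, z.2] i) ≤ v (p : ℂ) := by
    intro i; fin_cases i
    · exact nx
    · exact ny
  refine ⟨hz1, hz2, hev, u, hu, fun i => ?_, ?_⟩
  · have h3 := ev_sub_le hv (G i) (hu i) (hu i) (hξ (e i)) (hη (e i))
    rw [sub_self, map_zero] at h3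
    refine v_lt_of_near hv (hG i) ?_
    rw [← map_neg_eq_map v, neg_sub]
    exact h3.trans_lt (max_lt one_pos ((hd (e i)).trans_lt hvp))
  -- Taylor
  have ht := taylor_first hv H hξ hη hvp0.le hd
  have ht2 : v (p : ℂ) ^ 2 < v (p : ℂ) := by
    rw [sq]; exact mul_lt_of_lt_one_left hvp0 hvp
  have hxx : ![x 0, x 1] = x := by
    funext i; fin_cases i <;> rfl
  have hxy0 : aeval x H = ev H (x 0) (x 1) := by rw [ev_eq_aeval, hxx]
  have hle : v (aeval ![z.1, z.2] H) ≤ v (p : ℂ) := by rw [← ev_eq_aeval]; exact hev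
  have hA0 : v (aeval ![z.1, z.2] (pderiv 0 H)) ≤ 1 := v_aeval_le hv _ hη
  have hA1 : v (aeval ![z.1, z.2] (pderiv 1 H)) ≤ 1 := v_aeval_le hv _ hη
  rw [hxy0] at ht
  simp only [Matrix.cons_val_zero, Matrix.cons_val_one] at ht
  set A0 := aeval ![z.1, z.2] (pderiv 0 H) with hA0'
  set A1 := aeval ![z.1, z.2] (pderiv 1 H) with hA1'
  set h := aeval ![z.1, z.2] H with hh
  set w := ev H (x 0) (x 1) with hw
  have hW : v (h / p - firstN H S W z u) < 1 := by
    have e : h / p - firstN H S W z u = (-(w - h - (A0 * (x 0 - z.1) + A1 * (x 1 - z.2))) +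
        ((w - p * eval u W) - (A0 * (x 0 - z.1 * (1 + p * eval u (S 0))) +
          A1 * (x 1 - z.2 * (1 + p * eval u (S 1)))))) / p := by
      rw [firstN, ← hA0', ← hA1']
      field_simp
      ring
    rw [e, map_div₀, div_lt_one hvp0]
    refine (hv _ _).trans_lt (max_lt ?_ ?_)
    · rw [map_neg_eq_map]
      exact ht.trans_lt ht2
    · rw [sub_eq_add_neg]
      refine (hv _ _).trans_lt (max_lt hxy ?_)
      rw [map_neg_eq_map]
      refine (hv _ _).trans_lt (max_lt ?_ ?_)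
      · rw [map_mul]
        exact lt_of_le_of_lt (mul_le_of_le_one_left (AbsoluteValue.nonneg v _) hA0) hx
      · rw [map_mul]
        exact lt_of_le_of_lt (mul_le_of_le_one_left (AbsoluteValue.nonneg v _) hA1) hy
  have hη' : ∀ i, ![z.1, z.2] i ^ M = 1 := by
    intro i; fin_cases i
    · exact h1
    · exact h2
  have hf := frob_first_order hv hp hp2 hvp hM.symm hB hη' hle
  rw [← hh] at hf
  have hhp : v (h / p) ≤ 1 := by rw [map_div₀]; exact (div_le_one hvp0).2 hle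
  have hWle : v (firstN H S W z u) ≤ 1 := by
    refine v_le_of_near hv hhp ?_
    rw [← map_neg_eq_map v, neg_sub]
    exact hW.le
  have h5 := v_pow_sub_lt hv hhp hWle hW p
  rw [show aeval ![z.1, z.2] B + firstN H S W z u ^ p = (aeval ![z.1, z.2] B + (h / p) ^ p) +
    (-((h / p) ^ p - firstN H S W z u ^ p)) by ring]
  refine (hv _ _).trans_lt (max_lt hf ?_)
  rw [map_neg_eq_map]
  exact h5

end Pool.Agent.Helper81.DL
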