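import Pool.Agent.Helper81.DL.ResField
import Pool.Agent.Helper81.DL.PairsN
import Pool.Agent.Helper81.DL.Frob2
import Pool.Agent.Helper69.DL.Sep

/-! # Finiteness of the pairs of roots of unity near a curve to the first order: the general form -/

open Finset MvPolynomial

namespace Pool.Agent.Helper81.DL
open Pool.Agent.Helper20.DL Pool.Agent.Helper20.ZD Pool.Agent.Helper69.DL

/-- the kernel is stable under an Euler operator with small coefficients -/
theorem eul_of_deriv {p : ℕ} [hp : Fact p.Prime] {F : Type} [Field F] [Algebra (ZMod p) F] [CharP F p]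
    (φ : MvPolynomial (Fin 2) ℤ →+* F)
    (hX : φ (X 0) ≠ 0) (hY : φ (X 1) ≠ 0)
    {H B : MvPolynomial (Fin 2) ℤ} (hB : H ^ p = expand p H + C (p : ℤ) * B) (hH0 : φ H = 0)
    {A₁ B₁ A₂ B₂ : MvPolynomial (Fin 2) ℤ} {P₁ P₂ : Polynomial ℤ}
    (hP₁ : P₁.map (Int.castRingHom (ZMod p)) ≠ 0) (hP₂ : P₂.map (Int.castRingHom (ZMod p)) ≠ 0)
    (h₁ : A₁ * H + B₁ * pderiv 0 H = Polynomial.aeval (X 1) P₁)
    (h₂ : A₂ * H + B₂ * pderiv 1 H = Polynomial.aeval (X 0) P₂)
    (δ : Derivation (ZMod p) F F) (hδ : ¬ (δ (φ (X 0)) = 0 ∧ δ (φ (X 1)) = 0)) (hBδ : δ (φ B) = 0) :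
    ∃ u w : ℤ, ¬ (u = 0 ∧ w = 0) ∧ |u| ≤ Nat.sqrt p ∧ |w| ≤ Nat.sqrt p ∧ ∀ f, φ f = 0 → φ (eul u w f) = 0 := by
  set x : F := φ (X 0) with hx
  set y : F := φ (X 1) with hy
  have hφ' : ∀ f : MvPolynomial (Fin 2) ℤ, aeval ![x, y] f = φ f := by
    intro f
    have h1 : ((aeval ![x, y] : MvPolynomial (Fin 2) ℤ →ₐ[ℤ] F) : MvPolynomial (Fin 2) ℤ →+* F) = φ := by
      apply MvPolynomial.ringHom_ext
      · intro n
        rw [eq_intCast C n, map_intCast, map_intCast]
      · intro i
        rw [RingHom.coe_coe, aeval_X]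
        fin_cases i <;> rfl
    exact congrArg (fun g : MvPolynomial (Fin 2) ℤ →+* F => g f) h1
  obtain ⟨u, w, huw, hu, hw, δ', hδx, hδy⟩ := exists_euler' hX hY hB
    (by rw [hφ']; exact hH0) hP₁ hP₂ h₁ h₂ δ (by rw [hφ']; exact hBδ) hδ
  refine ⟨u, w, huw, hu, hw, fun f hf => ?_⟩
  have h1 := deriv_aeval δ' x y f
  rw [hφ', hf, map_zero, hδx, hδy] at h1
  rw [← hφ', eul, map_add, map_mul, map_mul, map_mul, map_mul, aeval_C, aeval_C, aeval_X,
    aeval_X, eq_intCast, eq_intCast]
  simp only [Matrix.cons_val_zero, Matrix.cons_val_one]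
  linear_combination -h1

/-- a derivation over a field `k` is a derivation over the prime field -/
lemma exists_derivation_prime {p : ℕ} {k F : Type} [Field k] [Field F] [Algebra k F] [Algebra (ZMod p) F]
    (δ : Derivation k F F) : ∃ δ' : Derivation (ZMod p) F F, ∀ z, δ' z = δ z :=
  ⟨Derivation.mk' ((δ : F →+ F).toZModLinearMap p) fun a b => δ.leibniz a b, fun _ => rfl⟩

variable {v : AbsoluteValue ℂ ℝ} {N : ℕ}

/-- **Finiteness of the pairs of roots of unity near the curve to the first order**, general form. -/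
theorem finite_pairsN (hv : IsNonarchimedean v) {p : ℕ} (hp : p.Prime) (hvp : v (p : ℂ) < 1)
    {H : MvPolynomial (Fin 2) ℤ} (hH : GoodRel v p H) {G : Fin N → MvPolynomial (Fin 2) ℤ}
    (hG : ∀ i, GoodRel v p (G i)) (e : Fin N → Fin 2) {P : Fin 2 → MvPolynomial (Fin N) ℂ}
    {R : MvPolynomial (Fin N) ℂ} (hP : ∀ j, IntPoly v (P j)) (hR : IntPoly v R) :
    (pairsN v p H G e P R).Finite := by
  classical
  have := Fact.mk hp
  set S : Set (ℂ × ℂ) := pairsN v p H G e P R with hSdef
  by_contra hinf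
  have hinf' : Infinite S := Set.infinite_coe_iff.2 hinf
  have hpp : 0 < v (p : ℂ) := by rw [AbsoluteValue.pos_iff]; exact_mod_cast hp.ne_zero
  have hlarge : ∀ H' : MvPolynomial (Fin 2) ℤ, GoodRel v p H' → H'.totalDegree < p := by
    intro H' h
    have := h.large
    nlinarith
  have hp2 : p ≠ 2 := by
    have h1 := hH.large
    have h2 : 1 ≤ (H.totalDegree + 1) ^ 2 := Nat.one_le_pow _ _ (Nat.succ_pos _)
    rintro rfl
    omega
  obtain ⟨B, hB⟩ := exists_frob hp H 1
  rw [pow_one] at hB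
  have hB2 : H ^ p - expand p H = C (p : ℤ) * B := by rw [hB]; ring
  have hfirst := fun z (hz : z ∈ S) => pairsN_first hv hp hp2 hvp hB2 hP hR hz
  choose hz1 hz2 hHz u hu hGu hW using hfirst
  have hS : ∀ z ∈ S, v z.1 = 1 ∧ v z.2 = 1 := fun z hz => ⟨hz1 z hz, hz2 z hz⟩
  set U : Ultrafilter S := Filter.hyperfilter S with hU
  set Q := limIdeal hv hS U with hQdef
  have hQ : Q.IsPrime := isPrime_limIdeal hv hS U
  have hpQ : C (p : ℤ) ∈ Q := by
    refine Filter.Eventually.of_forall fun s => ?_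
    rw [aeval_C]
    have : algebraMap ℤ ℂ p = (p : ℂ) := by simp
    rw [this]
    exact hvp
  have hHQ : H ∈ Q := Filter.Eventually.of_forall fun s => by
    have h1 := hHz s.1 s.2
    rw [ev_eq_aeval] at h1
    exact lt_of_le_of_lt h1 hvp
  have hX0 : (X 0 : MvPolynomial (Fin 2) ℤ) ∉ Q := by
    intro h
    obtain ⟨s, hs⟩ := (mem_limIdeal.1 h).exists
    rw [aeval_X] at hs
    exact absurd (hS s.1 s.2).1 hs.ne
  have hY0 : (X 1 : MvPolynomial (Fin 2) ℤ) ∉ Q := by
    intro h
    obtain ⟨s, hs⟩ := (mem_limIdeal.1 h).exists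
    rw [aeval_X] at hs
    exact absurd (hS s.1 s.2).2 hs.ne
  -- the limit field
  obtain ⟨K, _, π, hπ⟩ := exists_limField hv U
  set xy : Fin 2 → S → ball hv := ![fun s => ⟨s.1.1, (hz1 s.1 s.2).le⟩, fun s => ⟨s.1.2, (hz2 s.1 s.2).le⟩]
    with hxy
  set t : Fin N → S → ball hv := fun i s => ⟨u s.1 s.2 i, hu s.1 s.2 i⟩ with ht
  have hxys : ∀ (i : Fin 2) (s : S), evalAt hv s (xy i) = ![s.1.1, s.1.2] i := by
    intro i s
    fin_cases i <;> rfl
  have hevs : ∀ (f : MvPolynomial (Fin 2) ℤ) (s : S), evalAt hv s (aeval xy f) = aeval ![s.1.1, s.1.2] f := by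
    intro f s
    rw [ringHom_aeval]
    congr 2
    funext i
    exact hxys i s
  -- the constants
  set cst : ball hv →+* (S → ball hv) := Pi.constRingHom S (ball hv) with hcst
  have hcst0 : ∀ c, π (cst c) = 0 ↔ v (c : ℂ) < 1 := by
    intro c
    rw [hπ]
    constructor
    · intro h
      obtain ⟨s, hs⟩ := h.exists
      exact hs
    · exact fun h => Filter.Eventually.of_forall fun s => h
  -- the field generated by the constants and the two coordinates
  set ψ : MvPolynomial (Fin 2) (ball hv) →+* K := π.comp (eval₂Hom cst xy) with hψdef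
  obtain ⟨E, _, _, φ, hφψ, hfrac⟩ := exists_subfield' ψ
  set φ₀ : MvPolynomial (Fin 2) ℤ →+* E := φ.comp (MvPolynomial.map (Int.castRingHom (ball hv))) with hφ₀
  have hφπ : ∀ f : MvPolynomial (Fin 2) ℤ, algebraMap E K (φ₀ f) = π (aeval xy f) := by
    intro f
    rw [hφ₀, RingHom.comp_apply, hφψ, hψdef, RingHom.comp_apply]
    congr 1
    induction f using MvPolynomial.induction_on with
    | C a =>
      rw [map_C, coe_eval₂Hom, eval₂_C, aeval_C, eq_intCast, eq_intCast, map_intCast]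
    | add f g hf hg => rw [map_add, map_add, map_add, hf, hg]
    | mul_X f i hf =>
      rw [map_mul, map_mul, map_mul, hf, map_X, coe_eval₂Hom, eval₂_X, aeval_X]
  have hφC : ∀ c : ball hv, algebraMap E K (φ (C c)) = π (cst c) := by
    intro c
    rw [hφψ, hψdef, RingHom.comp_apply, coe_eval₂Hom, eval₂_C]
  have hφX : ∀ i, algebraMap E K (φ (X i)) = π (xy i) := by
    intro i
    rw [hφψ, hψdef, RingHom.comp_apply, coe_eval₂Hom, eval₂_X]
  have hφ₀X : ∀ i, φ₀ (X i) = φ (X i) := by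
    intro i
    rw [hφ₀, RingHom.comp_apply, map_X]
  have hφ : ∀ f, φ₀ f = 0 ↔ f ∈ Q := by
    intro f
    rw [← FaithfulSMul.algebraMap_eq_zero_iff E K, hφπ, hπ, mem_limIdeal]
    refine Filter.eventually_congr (Filter.Eventually.of_forall fun s => ?_)
    rw [← hevs, evalAt_apply]
  have hcharE : CharP E p := by
    rw [CharP.charP_iff_prime_eq_zero hp]
    have h1 := (hφ _).2 hpQ
    have h2 : φ₀ (C (p : ℤ)) = ((p : ℕ) : E) := by
      have h3 : (C (p : ℤ) : MvPolynomial (Fin 2) ℤ) = ((p : ℕ) : MvPolynomial (Fin 2) ℤ) := by simp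
      rw [h3, map_natCast]
    rwa [h2] at h1
  let _ : Algebra (ZMod p) E := ZMod.algebra E p
  -- the residue field
  obtain ⟨k, _, ρ, hρ, hρ0, hk⟩ := exists_resField hv
  have hθ0 : ∀ c : ball hv, φ (C c) = 0 ↔ v (c : ℂ) < 1 := by
    intro c
    rw [← FaithfulSMul.algebraMap_eq_zero_iff E K, hφC, hcst0]
  set θ : ball hv →+* E := φ.comp C with hθ
  have hker : RingHom.ker ρ ≤ RingHom.ker θ := by
    intro c hc
    rw [RingHom.mem_ker] at hc ⊢
    exact (hθ0 c).2 ((hρ0 c).1 hc)
  let _ : Algebra k E := (ρ.liftOfSurjective hρ ⟨θ, hker⟩).toAlgebra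
  have hkE : ∀ c : ball hv, algebraMap k E (ρ c) = φ (C c) := by
    intro c
    exact ρ.liftOfRightInverse_comp_apply _ (Function.rightInverse_surjInv hρ) ⟨θ, hker⟩ c
  have hess : Algebra.EssFiniteType k E := by
    rw [Algebra.essFiniteType_iff]
    refine ⟨{φ (X 0), φ (X 1)}, fun z => ?_⟩
    have hmem : ∀ f, φ f ∈ Algebra.adjoin k (({φ (X 0), φ (X 1)} : Finset E) : Set E) := by
      intro f
      induction f using MvPolynomial.induction_on with
      | C a =>
        rw [← hkE]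
        exact Subalgebra.algebraMap_mem _ _
      | add f g hf hg => rw [map_add]; exact add_mem hf hg
      | mul_X f i hf =>
        rw [map_mul]
        refine mul_mem hf (Algebra.subset_adjoin ?_)
        fin_cases i
        · simp
        · simp
    obtain ⟨a, b, hb, rfl⟩ := hfrac z
    refine ⟨φ b, hmem b, isUnit_iff_ne_zero.2 hb, ?_⟩
    rw [div_mul_cancel₀ _ hb]
    exact hmem a
  -- not both coordinates are constant
  have hconst : ∀ i : Fin 2, φ (X i) ∈ (algebraMap k E).range → ∃ c : ball hv, ∀ᶠ s : S in (U : Filter S),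
      v (![s.1.1, s.1.2] i - c) < 1 := by
    rintro i ⟨c, hc⟩
    obtain ⟨c, rfl⟩ := hρ c
    refine ⟨c, ?_⟩
    rw [hkE] at hc
    have h1 := congrArg (algebraMap E K) hc
    rw [hφC, hφX] at h1
    have h2 : π (xy i - cst c) = 0 := by rw [map_sub, h1, sub_self]
    rw [hπ] at h2
    filter_upwards [h2] with s hs
    have h3 := hxys i s
    rw [evalAt_apply] at h3
    rw [← h3]
    exact hs
  have hnot : ¬ (φ (X 0) ∈ (algebraMap k E).range ∧ φ (X 1) ∈ (algebraMap k E).range) := by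
    rintro ⟨h0, h1⟩
    obtain ⟨c, hc⟩ := hconst 0 h0
    obtain ⟨d, hd⟩ := hconst 1 h1
    have hcd := hc.and hd
    obtain ⟨s₀, hs₀⟩ := hcd.exists
    have hfin : {s : S | v (![s.1.1, s.1.2] 0 - c) < 1 ∧ v (![s.1.1, s.1.2] 1 - d) < 1}.Finite := by
      refine (Set.finite_singleton s₀).subset fun s hs => ?_
      rw [Set.mem_singleton_iff]
      obtain ⟨⟨M, hM, hx, hy⟩, -⟩ := s.2
      obtain ⟨⟨M₀, hM₀, hx₀, hy₀⟩, -⟩ := s₀.2
      have key : ∀ {a a₀ c : ℂ}, v a₀ = 1 → a ^ M = 1 → a₀ ^ M₀ = 1 → v (a - c) < 1 → v (a₀ - c) < 1 → a = a₀ := by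
        intro a a₀ c h1 h2 h3 h4 h5
        have ha₀ : a₀ ≠ 0 := by
          rintro rfl
          rw [map_zero] at h1
          exact zero_ne_one h1
        have h6 : v (a / a₀ - 1) < 1 := by
          have h7 : a / a₀ - 1 = ((a - c) + -(a₀ - c)) / a₀ := by field_simp; ring
          rw [h7, map_div₀, h1, div_one]
          refine (hv _ _).trans_lt (max_lt h4 ?_)
          rw [v.map_neg]
          exact h5
        have h8 : (a / a₀) ^ (M * M₀) = 1 := by
          rw [div_pow, pow_mul, h2, one_pow, mul_comm M M₀, pow_mul, h3, one_pow, div_one]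
        have h9 := eq_one_of_near hv hvp (Nat.Coprime.mul_left hM hM₀) h8 h6
        rw [div_eq_one_iff_eq ha₀] at h9
        exact h9
      apply Subtype.ext
      exact Prod.ext (key (hz1 s₀.1 s₀.2) hx hx₀ hs.1 hs₀.1) (key (hz2 s₀.1 s₀.2) hy hy₀ hs.2 hs₀.2)
    exact Filter.notMem_hyperfilter_of_finite hfin hcd
  -- the derivation
  obtain ⟨δ, hδ⟩ : ∃ δ : Derivation k E E, δ ≠ 0 := by
    by_cases h0 : φ (X 0) ∈ (algebraMap k E).range
    · exact exists_derivation_of_notMem (fun h1 => hnot ⟨h0, h1⟩)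
    · exact exists_derivation_of_notMem h0
  have hδ' : ¬ (δ (φ (X 0)) = 0 ∧ δ (φ (X 1)) = 0) := by
    rintro ⟨h1, h2⟩
    apply hδ
    have h3 : ∀ f, δ (φ f) = 0 := by
      intro f
      induction f using MvPolynomial.induction_on with
      | C a => rw [← hkE, Derivation.map_algebraMap]
      | add f g hf hg => rw [map_add, map_add, hf, hg, add_zero]
      | mul_X f i hf =>
        rw [map_mul, Derivation.leibniz, hf, smul_zero, add_zero]
        fin_cases i
        · change φ f • δ (φ (X 0)) = 0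
          rw [h1, smul_zero]
        · change φ f • δ (φ (X 1)) = 0
          rw [h2, smul_zero]
    ext z
    obtain ⟨a, b, hb, rfl⟩ := hfrac z
    have h5 : δ ((φ a / φ b) * φ b) = 0 := by rw [div_mul_cancel₀ _ hb, h3]
    rw [Derivation.leibniz, h3, smul_zero, zero_add, smul_eq_mul, mul_eq_zero] at h5
    exact h5.resolve_left hb
  obtain ⟨δ₀, hδ₀⟩ := exists_derivation_prime (p := p) δ
  -- the algebraic elements
  have hfib : ∀ (i : Fin N), ∃ P : Polynomial E, P ≠ 0 ∧ P.natDegree < p ∧ Polynomial.aeval (π (t i)) P = 0 := by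
    intro i
    refine ⟨fib (G i) (φ₀ (X (e i))), ?_, (natDegree_fib _ _).trans_lt (hlarge _ (hG i)), ?_⟩
    · intro h0
      have h1 : ∀ᶠ s : S in (U : Filter S), ∀ r ∈ (G i).support.image (wt 1 0),
          v (aeval ![1, ![s.1.1, s.1.2] (e i)] (part 1 0 r (G i))) < 1 := by
        rw [Filter.eventually_all_finset]
        intro r hr
        obtain ⟨m, hm, rfl⟩ := mem_image.1 hr
        have h2 := coeff_fib (G i) (φ₀ (X (e i))) (m 0)
        rw [h0, Polynomial.coeff_zero] at h2
        have h3 : wt 1 0 m = ((m 0 : ℕ) : ℤ) := by rw [wt, one_mul, zero_mul, add_zero]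
        rw [← h3] at h2
        have h4 := congrArg (algebraMap E K) h2
        rw [map_zero, ringHom_aeval] at h4
        have h5 : (fun j : Fin 2 => algebraMap E K ((![1, φ₀ (X (e i))] : Fin 2 → E) j)) =
            fun j => π ((![1, xy (e i)] : Fin 2 → (S → ball hv)) j) := by
          funext j
          fin_cases j
          · change algebraMap E K 1 = π 1
            rw [map_one, map_one]
          · change algebraMap E K (φ₀ (X (e i))) = π (xy (e i))
            rw [hφπ, aeval_X]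
        rw [h5, ← ringHom_aeval] at h4
        have h6 := (hπ _).1 h4.symm
        filter_upwards [h6] with s hs
        rw [← evalAt_apply, ringHom_aeval] at hs
        have h7 : (fun j : Fin 2 => evalAt hv s ((![1, xy (e i)] : Fin 2 → (S → ball hv)) j)) =
            ![1, ![s.1.1, s.1.2] (e i)] := by
          funext j
          fin_cases j
          · change evalAt hv s 1 = 1
            rw [map_one]
          · exact hxys (e i) s
        rw [h7] at hs
        exact hs
      obtain ⟨s, hs⟩ := h1.exists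
      refine false_of_parts (hG i).noCoset (map_one v) ?_ (by simp) hs
      generalize e i = j
      fin_cases j
      · exact hz1 s.1 s.2
      · exact hz2 s.1 s.2
    · have h1 : Polynomial.aeval (π (t i)) (fib (G i) (φ₀ (X (e i)))) =
          aeval (fun j => π ((![t i, xy (e i)] : Fin 2 → (S → ball hv)) j)) (G i) := by
        rw [fib]
        have h2 := ringHom_aeval (Polynomial.aeval (π (t i)) : Polynomial E →ₐ[E] K).toRingHom
          ![Polynomial.X, Polynomial.C (φ₀ (X (e i)))] (G i)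
        refine h2.trans ?_
        congr 2
        funext j
        fin_cases j
        · change Polynomial.aeval (π (t i)) Polynomial.X = π (t i)
          rw [Polynomial.aeval_X]
        · change Polynomial.aeval (π (t i)) (Polynomial.C (φ₀ (X (e i)))) = π (xy (e i))
          rw [Polynomial.aeval_C, hφπ, aeval_X]
      rw [h1, ← ringHom_aeval, hπ]
      refine Filter.Eventually.of_forall fun s => ?_
      rw [← evalAt_apply, ringHom_aeval]
      have h7 : (fun j : Fin 2 => evalAt hv s ((![t i, xy (e i)] : Fin 2 → (S → ball hv)) j)) =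
          ![u s.1 s.2 i, ![s.1.1, s.1.2] (e i)] := by
        funext j
        fin_cases j
        · rfl
        · exact hxys (e i) s
      rw [h7, ← ev_eq_aeval]
      exact hGu s.1 s.2 i
  have hs : ∀ z ∈ Set.range (fun i => π (t i)), ∃ P : Polynomial E, P ≠ 0 ∧ P.natDegree < p ∧
      Polynomial.aeval z P = 0 := by
    rintro z ⟨i, rfl⟩
    exact hfib i
  -- the polynomials in the `u i`
  set A := Algebra.adjoin E (Set.range (fun i => π (t i))) with hA
  have hpoly : ∀ T : MvPolynomial (Fin N) ℂ, IntPoly v T → ∃ f : S → ball hv, π f ∈ A ∧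
      ∀ s : S, evalAt hv s f = eval (u s.1 s.2) T := by
    intro T hT
    refine ⟨∑ m ∈ T.support, cst ⟨T.coeff m, hT m⟩ * ∏ i, t i ^ m i, ?_, fun s => ?_⟩
    · rw [map_sum]
      refine sum_mem fun m _ => ?_
      rw [map_mul, map_prod, ← hφC]
      refine mul_mem (Subalgebra.algebraMap_mem _ _) (prod_mem fun i _ => ?_)
      rw [map_pow]
      exact pow_mem (Algebra.subset_adjoin (Set.mem_range_self i) : π (t i) ∈ A) _
    · rw [map_sum, eval_eq']
      refine Finset.sum_congr rfl fun m _ => ?_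
      rw [map_mul, map_prod]
      congr 1
  obtain ⟨f₀, hf₀A, hf₀⟩ := hpoly (P 0) (hP 0)
  obtain ⟨f₁, hf₁A, hf₁⟩ := hpoly (P 1) (hP 1)
  obtain ⟨f₂, hf₂A, hf₂⟩ := hpoly R hR
  -- the element `W`
  set W : S → ball hv := f₂ - (xy 0 * aeval xy (pderiv 0 H) * f₀ + xy 1 * aeval xy (pderiv 1 H) * f₁) with hWdef
  have hWs : ∀ s : S, evalAt hv s W = firstN H P R s.1 (u s.1 s.2) := by
    intro s
    rw [hWdef, firstN]
    simp only [map_sub, map_add, map_mul, hevs, hxys, hf₀, hf₁, hf₂]
    rfl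
  have hWrel : π (aeval xy B) + π W ^ p = 0 := by
    rw [← map_pow, ← map_add, hπ]
    refine Filter.Eventually.of_forall fun s => ?_
    rw [← evalAt_apply, map_add, map_pow, hevs, hWs]
    exact hW s.1 s.2
  have m1 : ∀ f : MvPolynomial (Fin 2) ℤ, π (aeval xy f) ∈ A := by
    intro f
    rw [← hφπ]
    exact Subalgebra.algebraMap_mem _ _
  have m2 : ∀ i, π (xy i) ∈ A := by
    intro i
    rw [← hφX]
    exact Subalgebra.algebraMap_mem _ _
  have hWmem : π W ∈ A := by
    rw [hWdef, map_sub, map_add, map_mul, map_mul, map_mul, map_mul]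
    exact sub_mem hf₂A (add_mem (mul_mem (mul_mem (m2 0) (m1 _)) hf₀A) (mul_mem (mul_mem (m2 1) (m1 _)) hf₁A))
  have hBδ : δ₀ (φ₀ B) = 0 := by
    have h1 : algebraMap E K (-φ₀ B) = π W ^ p := by
      rw [map_neg, hφπ]
      linear_combination -hWrel
    have h2 := derivation_eq_zero hp hs hWmem h1 δ₀
    rw [map_neg, neg_eq_zero] at h2
    exact h2
  -- the Euler operator
  obtain ⟨A₁, B₁, P₁, h₁, k₁, hk₁⟩ := hH.sqf₀
  obtain ⟨A₂, B₂, P₂, h₂, k₂, hk₂⟩ := hH.sqf₁
  have hmap : ∀ (P : Polynomial ℤ) (k : ℕ), ¬ (p : ℤ) ∣ P.coeff k → P.map (Int.castRingHom (ZMod p)) ≠ 0 := by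
    intro P k hk h
    have h1 := congrArg (fun P => Polynomial.coeff P k) h
    simp only [Polynomial.coeff_map, Polynomial.coeff_zero, eq_intCast] at h1
    exact hk ((ZMod.intCast_zmod_eq_zero_iff_dvd _ p).1 h1)
  obtain ⟨a, w, haw, ha, hw, hstab⟩ := eul_of_deriv φ₀ (fun h => hX0 ((hφ _).1 h)) (fun h => hY0 ((hφ _).1 h))
    hB ((hφ _).2 hHQ) (hmap _ _ hk₁) (hmap _ _ hk₂) h₁ h₂ δ₀
    (by rw [hφ₀X, hφ₀X, hδ₀, hδ₀]; exact hδ') hBδ
  have hstab' : ∀ f ∈ Q, eul a w f ∈ Q := fun f hf => (hφ _).1 (hstab f ((hφ _).2 hf))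
  -- the weights
  set D := H.totalDegree with hD
  have hwt : ∀ m ∈ H.support, ∀ m' ∈ H.support, |wt a w m - wt a w m'| < p := by
    intro m hm m' hm'
    have hb : ∀ i : Fin 2, ∀ m ∈ H.support, ((m i : ℕ) : ℤ) ≤ D := by
      intro i m hm
      exact_mod_cast (monomial_le_degreeOf i hm).trans (degreeOf_le_totalDegree H i)
    have hs : (Nat.sqrt p : ℤ) * Nat.sqrt p ≤ p := by exact_mod_cast Nat.sqrt_le p
    have hs0 : (0 : ℤ) ≤ Nat.sqrt p := by positivity
    have h1 : ∀ (t : ℤ) (i : Fin 2), |t| ≤ Nat.sqrt p →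
        |t * m i - t * m' i| ≤ Nat.sqrt p * D := by
      intro t i ht
      rw [← mul_sub, abs_mul]
      have h2 : |((m i : ℕ) : ℤ) - (m' i : ℕ)| ≤ D := by
        rw [abs_le]
        have h3 := hb i m hm
        have h4 := hb i m' hm'
        constructor <;> omega
      exact mul_le_mul ht h2 (abs_nonneg _) hs0
    have h2 : |wt a w m - wt a w m'| ≤ 2 * (Nat.sqrt p * D) := by
      have h3 : wt a w m - wt a w m' = (a * m 0 - a * m' 0) + (w * m 1 - w * m' 1) := by
        rw [wt, wt]; ring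
      rw [h3]
      refine (abs_add_le _ _).trans ?_
      linarith [h1 a 0 ha, h1 w 1 hw]
    refine lt_of_le_of_lt h2 ?_
    have hpD' : 4 * (D : ℤ) ^ 2 < p := by
      have h5 : 64 * ((D : ℤ) + 1) ^ 2 ≤ p := by exact_mod_cast hH.large
      nlinarith [Int.natCast_nonneg D]
    by_contra hcon
    push Not at hcon
    have hp0 : (0 : ℤ) < p := by exact_mod_cast hp.pos
    nlinarith [mul_le_mul hcon hcon hp0.le (by positivity : (0 : ℤ) ≤ 2 * (Nat.sqrt p * D)),
      mul_le_mul_of_nonneg_left hs (by positivity : (0 : ℤ) ≤ 4 * (D : ℤ) ^ 2)]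
  have hpart := fun e => part_mem hQ hp hpQ hstab' hHQ hwt e
  have hev : ∀ᶠ s : S in (U : Filter S), ∀ e ∈ H.support.image (wt a w),
      v (aeval ![s.1.1, s.1.2] (part a w e H)) < 1 := by
    rw [Filter.eventually_all_finset]
    exact fun e _ => hpart e
  obtain ⟨s, hs⟩ := hev.exists
  exact false_of_parts hH.noCoset (hz1 s.1 s.2) (hz2 s.1 s.2) haw hs

end Pool.Agent.Helper81.DL
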