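import Pool.Agent.Helper81.DL.Frob

/-! # The residue field at an ultrafilter -/

open Finset MvPolynomial

namespace Pool.Agent.Helper81.DL
open Pool.Agent.Helper20.DL Pool.Agent.Helper20.ZD

variable {v : AbsoluteValue ℂ ℝ}

/-- the valuation ring -/
def ball (hv : IsNonarchimedean v) : Subring ℂ where
  carrier := {z | v z ≤ 1}
  mul_mem' := by
    intro a b ha hb
    change v (a * b) ≤ 1
    rw [map_mul]
    exact mul_le_one₀ ha (v.nonneg _) hb
  one_mem' := by change v 1 ≤ 1; rw [map_one]
  add_mem' := fun ha hb => (hv _ _).trans (max_le ha hb)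
  zero_mem' := by change v 0 ≤ 1; rw [map_zero]; exact zero_le_one
  neg_mem' := by
    intro a ha
    change v (-a) ≤ 1
    rw [v.map_neg]
    exact ha

lemma mem_ball {hv : IsNonarchimedean v} {z : ℂ} : z ∈ ball hv ↔ v z ≤ 1 := Iff.rfl

/-- the functions which are small at almost all points -/
def limJ (hv : IsNonarchimedean v) {ι : Type} (U : Ultrafilter ι) : Ideal (ι → ball hv) where
  carrier := {f | ∀ᶠ s in (U : Filter ι), v (f s : ℂ) < 1}
  add_mem' := by
    intro a b ha hb
    filter_upwards [ha, hb] with s h1 h2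
    exact (hv _ _).trans_lt (max_lt h1 h2)
  zero_mem' := Filter.Eventually.of_forall fun s => by
    rw [Pi.zero_apply, ZeroMemClass.coe_zero, map_zero]
    exact zero_lt_one
  smul_mem' := by
    intro c f hf
    filter_upwards [hf] with s h
    have h1 : (((c • f) s : ball hv) : ℂ) = (c s : ℂ) * (f s : ℂ) := rfl
    rw [h1, map_mul]
    exact lt_of_le_of_lt (mul_le_of_le_one_left (v.nonneg _) (c s).2) h

lemma mem_limJ {hv : IsNonarchimedean v} {ι : Type} {U : Ultrafilter ι} {f : ι → ball hv} :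
    f ∈ limJ hv U ↔ ∀ᶠ s in (U : Filter ι), v (f s : ℂ) < 1 := Iff.rfl

lemma isMaximal_limJ (hv : IsNonarchimedean v) {ι : Type} (U : Ultrafilter ι) : (limJ hv U).IsMaximal := by
  classical
  rw [Ideal.isMaximal_iff]
  refine ⟨?_, ?_⟩
  · intro h
    obtain ⟨s, hs⟩ := (mem_limJ.1 h).exists
    have h1 : (((1 : ι → ball hv) s : ball hv) : ℂ) = 1 := rfl
    rw [h1, map_one] at hs
    exact lt_irrefl _ hs
  · intro K x hJK hx hxK
    have h1 : ∀ᶠ s in (U : Filter ι), v (x s : ℂ) = 1 := by
      have h2 : ∀ᶠ s in (U : Filter ι), ¬ v (x s : ℂ) < 1 := Ultrafilter.eventually_not.2 hx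
      filter_upwards [h2] with s hs
      exact le_antisymm (x s).2 (not_lt.1 hs)
    set y : ι → ball hv := fun s => if h : v (x s : ℂ) = 1 then ⟨(x s : ℂ)⁻¹, by
      rw [mem_ball, map_inv₀, h, inv_one]⟩ else 0 with hy
    have h2 : y * x - 1 ∈ limJ hv U := by
      rw [mem_limJ]
      filter_upwards [h1] with s hs
      have h3 : x s ≠ 0 := by
        intro h0
        rw [h0, ZeroMemClass.coe_zero, map_zero] at hs
        exact zero_ne_one hs
      have h4 : (y * x - 1) s = 0 := by
        rw [Pi.sub_apply, Pi.mul_apply, Pi.one_apply, sub_eq_zero]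
        apply Subtype.ext
        have h5 : (y s : ℂ) = (x s : ℂ)⁻¹ := by
          rw [hy]
          simp only [hs, dif_pos]
        rw [Subring.coe_mul, h5, inv_mul_cancel₀, Subring.coe_one]
        exact fun h => h3 (Subtype.ext h)
      rw [h4, ZeroMemClass.coe_zero, map_zero]
      exact zero_lt_one
    have h3 : (1 : ι → ball hv) = y * x - (y * x - 1) := by ring
    rw [h3]
    exact K.sub_mem (K.mul_mem_left y hxK) (hJK h2)

/-- the residue field at an ultrafilter -/
lemma exists_limField (hv : IsNonarchimedean v) {ι : Type} (U : Ultrafilter ι) :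
    ∃ (K : Type) (_ : Field K) (π : (ι → ball hv) →+* K),
      ∀ f, π f = 0 ↔ ∀ᶠ s in (U : Filter ι), v (f s : ℂ) < 1 := by
  have := isMaximal_limJ hv U
  refine ⟨(ι → ball hv) ⧸ limJ hv U, Ideal.Quotient.field _, Ideal.Quotient.mk _, fun f => ?_⟩
  rw [← mem_limJ]
  exact Ideal.Quotient.eq_zero_iff_mem

/-- the field generated by the values of a ring homomorphism -/
lemma exists_subfield {K : Type} [Field K] (ψ : MvPolynomial (Fin 2) ℤ →+* K) :
    ∃ (E : Type) (_ : Field E) (_ : Algebra E K) (φ : MvPolynomial (Fin 2) ℤ →+* E),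
      (∀ f, algebraMap E K (φ f) = ψ f) ∧ ∀ z, ∃ a b, φ b ≠ 0 ∧ z = φ a / φ b := by
  refine ⟨Subfield.closure (Set.range ψ), inferInstance, inferInstance,
    ψ.codRestrict (Subfield.closure (Set.range ψ)) (fun f => Subfield.subset_closure ⟨f, rfl⟩),
    fun f => rfl, ?_⟩
  rintro ⟨z, hz⟩
  rw [Subfield.mem_closure_iff] at hz
  obtain ⟨y, hy, w, hw, rfl⟩ := hz
  have h1 : Subring.closure (Set.range ψ) = ψ.range := by
    rw [← RingHom.coe_range, Subring.closure_eq]
  rw [h1] at hy hw
  obtain ⟨a, rfl⟩ := hy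
  obtain ⟨b, rfl⟩ := hw
  by_cases hb : ψ b = 0
  · refine ⟨0, 1, ?_, ?_⟩
    · rw [map_one]; exact one_ne_zero
    · rw [map_zero, zero_div]
      apply Subtype.ext
      change ψ a / ψ b = 0
      rw [hb, div_zero]
  · refine ⟨a, b, fun h => hb ?_, ?_⟩
    · exact congrArg Subtype.val h
    · apply Subtype.ext
      rfl

lemma ringHom_aeval {A A' : Type*} [CommRing A] [CommRing A'] [Algebra ℤ A] [Algebra ℤ A'] (ε : A →+* A') {σ : Type*} (g : σ → A)
    (f : MvPolynomial σ ℤ) : ε (aeval g f) = aeval (fun i => ε (g i)) f := by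
  induction f using MvPolynomial.induction_on with
  | C a => rw [aeval_C, aeval_C, eq_intCast, eq_intCast, map_intCast]
  | add f g hf hg => rw [map_add, map_add, map_add, hf, hg]
  | mul_X f i hf => rw [map_mul, map_mul, map_mul, hf, aeval_X, aeval_X]

/-- the value at a point -/
def evalAt (hv : IsNonarchimedean v) {ι : Type} (s : ι) : (ι → ball hv) →+* ℂ :=
  (ball hv).subtype.comp (Pi.evalRingHom (fun _ => ball hv) s)

lemma evalAt_apply (hv : IsNonarchimedean v) {ι : Type} (s : ι) (f : ι → ball hv) :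
    evalAt hv s f = (f s : ℂ) := rfl

end Pool.Agent.Helper81.DL
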