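import Pool.Agent.Helper81.DL.LimField
import Pool.Agent.Helper81.DL.Euler2

/-! # The residue field is algebraically closed; derivations over it -/

open MvPolynomial

namespace Pool.Agent.Helper81.DL
open Pool.Agent.Helper20.DL Pool.Agent.Helper20.ZD

variable {v : AbsoluteValue ℂ ℝ}

/-- the maximal ideal -/
def maxJ (hv : IsNonarchimedean v) : Ideal (ball hv) where
  carrier := {c | v (c : ℂ) < 1}
  add_mem' := fun ha hb => (hv _ _).trans_lt (max_lt ha hb)
  zero_mem' := by
    change v ((0 : ball hv) : ℂ) < 1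
    rw [ZeroMemClass.coe_zero, map_zero]
    exact zero_lt_one
  smul_mem' := by
    intro c f hf
    change v ((c • f : ball hv) : ℂ) < 1
    have h1 : ((c • f : ball hv) : ℂ) = (c : ℂ) * (f : ℂ) := rfl
    rw [h1, map_mul]
    exact lt_of_le_of_lt (mul_le_of_le_one_left (v.nonneg _) c.2) hf

lemma mem_maxJ {hv : IsNonarchimedean v} {c : ball hv} : c ∈ maxJ hv ↔ v (c : ℂ) < 1 := Iff.rfl

lemma isMaximal_maxJ (hv : IsNonarchimedean v) : (maxJ hv).IsMaximal := by
  rw [Ideal.isMaximal_iff]
  refine ⟨?_, ?_⟩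
  · intro h
    rw [mem_maxJ, OneMemClass.coe_one, map_one] at h
    exact lt_irrefl _ h
  · intro K x _ hx hxK
    rw [mem_maxJ, not_lt] at hx
    have h1 : v (x : ℂ) = 1 := le_antisymm x.2 hx
    have hx0 : (x : ℂ) ≠ 0 := by
      intro h
      rw [h, map_zero] at h1
      exact zero_ne_one h1
    have h2 : (⟨(x : ℂ)⁻¹, by rw [mem_ball, map_inv₀, h1, inv_one]⟩ : ball hv) * x = 1 := by
      apply Subtype.ext
      rw [Subring.coe_mul, inv_mul_cancel₀ hx0, Subring.coe_one]
    rw [← h2]
    exact K.mul_mem_left _ hxK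

/-- roots of monic polynomials with integral coefficients are integral -/
lemma root_mem_ball (hv : IsNonarchimedean v) {P : Polynomial (ball hv)} (hP : P.Monic) {r : ℂ}
    (hr : Polynomial.aeval r P = 0) : v r ≤ 1 := by
  by_contra hcon
  push Not at hcon
  rw [Polynomial.aeval_eq_sum_range, Finset.sum_range_succ, hP.coeff_natDegree, one_smul] at hr
  have h1 : r ^ P.natDegree = -∑ i ∈ Finset.range P.natDegree, P.coeff i • r ^ i := by
    linear_combination hr
  have h2 : v (∑ i ∈ Finset.range P.natDegree, P.coeff i • r ^ i) < v r ^ P.natDegree := by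
    have h3 : ∀ T : Finset ℕ, (∀ i ∈ T, i < P.natDegree) →
        v (∑ i ∈ T, P.coeff i • r ^ i) < v r ^ P.natDegree := by
      intro T
      induction T using Finset.induction_on with
      | empty =>
        intro _
        rw [Finset.sum_empty, map_zero]
        exact pow_pos (zero_lt_one.trans hcon) _
      | insert i T hi ih =>
        intro hT
        rw [Finset.sum_insert hi]
        refine (hv _ _).trans_lt (max_lt ?_ (ih fun j hj => hT j (Finset.mem_insert_of_mem hj)))
        have h4 : P.coeff i • r ^ i = ((P.coeff i : ball hv) : ℂ) * r ^ i := rfl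
        rw [h4, map_mul, map_pow]
        refine lt_of_le_of_lt (mul_le_of_le_one_left (pow_nonneg (v.nonneg _) _) (P.coeff i).2) ?_
        exact pow_lt_pow_right₀ hcon (hT i (Finset.mem_insert_self i T))
    exact h3 _ fun i hi => Finset.mem_range.1 hi
  rw [← v.map_neg, ← h1, map_pow] at h2
  exact lt_irrefl _ h2

/-- the residue field -/
lemma exists_resField (hv : IsNonarchimedean v) :
    ∃ (k : Type) (_ : Field k) (ρ : ball hv →+* k), Function.Surjective ρ ∧
      (∀ c, ρ c = 0 ↔ v (c : ℂ) < 1) ∧ IsAlgClosed k := by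
  have := isMaximal_maxJ hv
  let _ : Field (ball hv ⧸ maxJ hv) := Ideal.Quotient.field _
  have hsurj : Function.Surjective (Ideal.Quotient.mk (maxJ hv)) := Ideal.Quotient.mk_surjective
  refine ⟨ball hv ⧸ maxJ hv, inferInstance, Ideal.Quotient.mk _, hsurj, fun c => ?_, ?_⟩
  · rw [← mem_maxJ]
    exact Ideal.Quotient.eq_zero_iff_mem
  · refine IsAlgClosed.of_exists_root _ fun p hp hirr => ?_
    have hl : p ∈ Polynomial.lifts (Ideal.Quotient.mk (maxJ hv)) := by
      rw [Polynomial.lifts_iff_coeff_lifts]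
      intro i
      exact hsurj _
    obtain ⟨P, hPp, hPd, hPm⟩ := Polynomial.lifts_and_natDegree_eq_and_monic hl hp
    have hdeg : 0 < P.natDegree := by
      rw [hPd]
      exact hirr.natDegree_pos
    obtain ⟨r, hr⟩ := IsAlgClosed.exists_root (P.map (algebraMap (ball hv) ℂ)) (by
      rw [hPm.degree_map]
      exact (Polynomial.natDegree_pos_iff_degree_pos.1 hdeg).ne')
    rw [Polynomial.IsRoot.def, Polynomial.eval_map, ← Polynomial.aeval_def] at hr
    refine ⟨Ideal.Quotient.mk (maxJ hv) ⟨r, root_mem_ball hv hPm hr⟩, ?_⟩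
    rw [← hPp, Polynomial.eval_map, Polynomial.eval₂_hom]
    have h1 : Polynomial.eval (⟨r, root_mem_ball hv hPm hr⟩ : ball hv) P = 0 := by
      apply Subtype.ext
      have h2 := Polynomial.aeval_algebraMap_apply ℂ (⟨r, root_mem_ball hv hPm hr⟩ : ball hv) P
      rw [Polynomial.coe_aeval_eq_eval] at h2
      exact h2.symm.trans hr
    rw [h1, map_zero]

/-- the field generated by the values of a ring homomorphism -/
lemma exists_subfield' {A K : Type} [CommRing A] [Field K] (ψ : A →+* K) :
    ∃ (E : Type) (_ : Field E) (_ : Algebra E K) (φ : A →+* E),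
      (∀ f, algebraMap E K (φ f) = ψ f) ∧ ∀ z, ∃ a b, φ b ≠ 0 ∧ z = φ a / φ b := by
  refine ⟨Subfield.closure (Set.range ψ), inferInstance, inferInstance,
    ψ.codRestrict (Subfield.closure (Set.range ψ)) (fun f => Subfield.subset_closure ⟨f, rfl⟩),
    fun f => rfl, ?_⟩
  rintro ⟨z, hz⟩
  rw [Subfield.mem_closure_iff] at hz
  obtain ⟨y, hy, w, hw, rfl⟩ := hz
  have h1 : Subring.closure (Set.range ψ) = ψ.range := by
    rw [← RingHom.coe_range, Subring.closure_eq]
  rw [h1] at hy hw
  obtain ⟨a, rfl⟩ := hy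
  obtain ⟨b, rfl⟩ := hw
  by_cases hb : ψ b = 0
  · refine ⟨0, 1, ?_, ?_⟩
    · rw [map_one]; exact one_ne_zero
    · rw [map_zero, zero_div]
      apply Subtype.ext
      change ψ a / ψ b = 0
      rw [hb, div_zero]
  · refine ⟨a, b, fun h => hb ?_, ?_⟩
    · exact congrArg Subtype.val h
    · apply Subtype.ext
      rfl

/-- a nonconstant element of a finitely generated extension of an algebraically closed field: there is a
nonzero derivation -/
theorem exists_derivation_of_notMem {k F : Type} [Field k] [IsAlgClosed k] [Field F] [Algebra k F]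
    [Algebra.EssFiniteType k F] {x : F} (hx : x ∉ (algebraMap k F).range) : ∃ δ : Derivation k F F, δ ≠ 0 := by
  by_contra hcon
  push Not at hcon
  have h1 : Subsingleton (Ω[F⁄k]) := by
    refine ⟨fun a b => ?_⟩
    rw [← sub_eq_zero, ← Module.forall_dual_apply_eq_zero_iff F]
    intro φ
    have h2 := hcon ((KaehlerDifferential.linearMapEquivDerivation k F) φ)
    have h3 : φ = 0 := by
      apply (KaehlerDifferential.linearMapEquivDerivation k F).injective
      rw [h2, map_zero]
    rw [h3, LinearMap.zero_apply]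
  have h2 : Algebra.FormallyUnramified k F := ⟨h1⟩
  have h3 : Algebra.IsSeparable k F := Algebra.FormallyUnramified.isSeparable k F
  have h4 : Algebra.IsIntegral k F := inferInstance
  obtain ⟨c, hc⟩ := (IsAlgClosed.algebraMap_bijective_of_isIntegral (k := k) (K := F)).2 x
  exact hx ⟨c, hc⟩

end Pool.Agent.Helper81.DL
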